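import Pool.Agent.Lib.MP_deef39_co_PW.Final

/-! # Dis module A: the flips of a spanning path, and the disconnection criterion -/

set_option autoImplicit false

namespace FPW

private theorem disa_deg3 {n : ℕ} {B : SimpleGraph (Fin n)} {v a b c : Fin n}
    (hd : (B.neighborSet v).ncard ≤ 2) (ha : B.Adj v a) (hb : B.Adj v b) (hc : B.Adj v c)
    (hab : a ≠ b) (hac : a ≠ c) (hbc : b ≠ c) : False := by
  have h1 : ({a, b, c} : Set (Fin n)) ⊆ B.neighborSet v := by
    intro x hx
    simp only [Set.mem_insert_iff, Set.mem_singleton_iff] at hx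
    rcases hx with rfl | rfl | rfl
    · exact ha
    · exact hb
    · exact hc
  have h2 := Set.ncard_le_ncard h1 (Set.toFinite _)
  have h3 : ({a, b, c} : Set (Fin n)).ncard = 3 := Set.ncard_eq_three.2
    ⟨a, b, c, hab, hac, hbc, rfl⟩
  omega

/-- a vertex of a list `L` which is neither its first nor its last entry has two different
neighbours -/
private theorem disa_inner {n : ℕ} {L : List (Fin n)} (hL : L.Nodup) {u : Fin n} (hu : u ∈ L) :
    (∃ M, L = u :: M) ∨ (∃ M, L = M ++ [u]) ∨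
      ∃ a b, a ≠ b ∧ Ed L u a ∧ Ed L u b := by
  obtain ⟨A, B, rfl⟩ := List.append_of_mem hu
  rcases List.eq_nil_or_concat A with rfl | ⟨A', a, rfl⟩
  · exact Or.inl ⟨B, rfl⟩
  · cases B with
    | nil => exact Or.inr (Or.inl ⟨A'.concat a, rfl⟩)
    | cons b B =>
      refine Or.inr (Or.inr ⟨a, b, ?_, ?_, ?_⟩)
      · rintro rfl
        rw [List.concat_eq_append, List.append_assoc] at hL
        have h1 := (List.nodup_append.1 hL).2.1
        simp at h1
      · rw [List.concat_eq_append, List.append_assoc]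
        exact ed_of_split'
      · rw [ed_mid]
        exact Or.inr (Or.inl ⟨rfl, rfl⟩)

/-- the flips of a spanning path: rotation at the last vertex, at the first vertex, or the closing
edge together with all edges but one -/
theorem gr_flip {n : ℕ} {l : List (Fin n)} (hn : l.Nodup) (hal : ∀ v, v ∈ l)
    {B : SimpleGraph (Fin n)} (hB : B.IsTree) (hd : ∀ v, (B.neighborSet v).ncard ≤ 2)
    (h1 : ((gr l).edgeSet \ B.edgeSet).ncard = 1) (h2 : (B.edgeSet \ (gr l).edgeSet).ncard = 1) :
    (∃ v z l', RotL v z l l' ∧ B = gr l' ∧ B.Adj z v ∧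
        ∀ a b, Ed l a b → B.Adj a b ∨ a = v ∨ b = v) ∨
      (∃ v z l', RotL v z l.reverse l' ∧ B = gr l' ∧ B.Adj z v ∧
        ∀ a b, Ed l a b → B.Adj a b ∨ a = v ∨ b = v) ∨
      (∃ h z m, l = h :: (m ++ [z]) ∧ B.Adj h z ∧
        ∃ x y, ∀ a b, Ed l a b → s(a, b) ≠ s(x, y) → B.Adj a b) := by
  rw [Set.ncard_eq_one] at h1 h2
  obtain ⟨e, he⟩ := h1
  obtain ⟨f, hf⟩ := h2
  -- the removed edge
  have he1 : e ∈ (gr l).edgeSet \ B.edgeSet := by rw [he]; exact rfl
  have hf1 : f ∈ B.edgeSet \ (gr l).edgeSet := by rw [hf]; exact rfl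
  obtain ⟨L, x, y, R, hl, hexy⟩ : ∃ L x y R, l = L ++ x :: y :: R ∧ e = s(x, y) := by
    induction e using Sym2.ind with
    | _ a b =>
      have h3 : Ed l a b := he1.1.2
      obtain ⟨A', B', h4 | h4⟩ := ed_split h3
      · exact ⟨A', a, b, B', h4, rfl⟩
      · exact ⟨A', b, a, B', h4, Sym2.eq_swap⟩
  subst hexy
  have hnB : ¬ B.Adj x y := fun h => he1.2 h
  have hkeep : ∀ a b, Ed l a b → s(a, b) ≠ s(x, y) → B.Adj a b := by
    intro a b hab hne
    by_contra hno
    have h3 : s(a, b) ∈ (gr l).edgeSet \ B.edgeSet := ⟨⟨ed_ne hn hab, hab⟩, hno⟩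
    rw [he] at h3
    exact hne h3
  have hnew : ∀ a b, B.Adj a b → Ed l a b ∨ s(a, b) = f := by
    intro a b hab
    by_cases hc : Ed l a b
    · exact Or.inl hc
    · right
      have h3 : s(a, b) ∈ B.edgeSet \ (gr l).edgeSet := ⟨hab, fun h => hc h.2⟩
      rw [hf] at h3
      exact h3
  -- the two parts
  have hl' : l = (L ++ [x]) ++ (y :: R) := by rw [hl, List.append_assoc]; rfl
  have hnd : (L ++ [x]).Nodup ∧ (y :: R).Nodup ∧ ∀ a ∈ L ++ [x], ∀ b ∈ y :: R, a ≠ b := by
    rw [hl'] at hn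
    exact List.nodup_append.1 hn
  have hed : ∀ a b, Ed l a b ↔ Ed (L ++ [x]) a b ∨ (a = x ∧ b = y) ∨ (a = y ∧ b = x) ∨
      Ed (y :: R) a b := by
    intro a b
    rw [hl, ed_mid, ed_cons2]
  have hpart : ∀ v, v ∈ L ++ [x] ∨ v ∈ y :: R := by
    intro v
    have h3 := hal v
    rw [hl', List.mem_append] at h3
    exact h3
  -- the new edge joins the two parts
  obtain ⟨u, w, hu, hw, hfuw⟩ : ∃ u w, u ∈ L ++ [x] ∧ w ∈ y :: R ∧ f = s(u, w) := by
    by_contra hno
    have hcl : ∀ a b, B.Adj a b → a ∈ L ++ [x] → b ∈ L ++ [x] := by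
      intro a b hab ha
      rcases hpart b with hb | hb
      · exact hb
      · exfalso
        rcases hnew a b hab with h3 | h3
        · rcases (hed a b).1 h3 with h4 | ⟨h4, h5⟩ | ⟨h4, h5⟩ | h4
          · exact hnd.2.2 b (ed_mem' h4) b hb rfl
          · exact hnB (h4 ▸ h5 ▸ hab)
          · exact hnB ((h4 ▸ h5 ▸ hab : B.Adj y x).symm)
          · exact hnd.2.2 a ha a (ed_mem h4) rfl
        · exact hno ⟨a, b, ha, hb, h3.symm⟩
    have hreach : ∀ v, B.Reachable x v → v ∈ L ++ [x] := by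
      intro v hv
      rw [SimpleGraph.reachable_iff_reflTransGen] at hv
      induction hv with
      | refl => simp
      | tail _ h4 ih => exact hcl _ _ h4 ih
    have h3 : y ∈ L ++ [x] := hreach y (hB.connected.preconnected x y)
    exact hnd.2.2 y h3 y (by simp) rfl
  subst hfuw
  have hBuw : B.Adj u w := hf1.1
  have hnuw : ¬ Ed l u w := fun h => hf1.2 ⟨hBuw.ne, h⟩
  have huw : ∀ a ∈ L ++ [x], ∀ b ∈ y :: R, a ≠ b := hnd.2.2
  have hyn : y ∉ L ++ [x] := fun h => huw y h y (by simp) rfl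
  have hxn : x ∉ y :: R := fun h => huw x (by simp) x h rfl
  -- `u` is an end of the first part
  have hk1 : ∀ a b, Ed (L ++ [x]) a b → B.Adj a b := by
    intro a b hab
    refine hkeep a b ((hed a b).2 (Or.inl hab)) ?_
    intro h3
    rcases Sym2.eq_iff.1 h3 with ⟨_, h4⟩ | ⟨h4, _⟩
    · exact hyn (h4 ▸ ed_mem' hab)
    · exact hyn (h4 ▸ ed_mem hab)
  have hk2 : ∀ a b, Ed (y :: R) a b → B.Adj a b := by
    intro a b hab
    refine hkeep a b ((hed a b).2 (Or.inr (Or.inr (Or.inr hab)))) ?_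
    intro h3
    rcases Sym2.eq_iff.1 h3 with ⟨h4, _⟩ | ⟨_, h4⟩
    · exact hxn (h4 ▸ ed_mem hab)
    · exact hxn (h4 ▸ ed_mem' hab)
  have hu2 : (∃ M, L ++ [x] = u :: M) ∨ u = x := by
    rcases disa_inner hnd.1 hu with h3 | ⟨M, h3⟩ | ⟨a, b, hab, h4, h5⟩
    · exact Or.inl h3
    · right
      have h4 := congrArg List.getLast? h3
      simpa using h4.symm
    · exact (disa_deg3 (hd u) (hk1 _ _ h4) (hk1 _ _ h5) hBuw hab
        (fun h => huw a (ed_mem' h4) w hw h) (fun h => huw b (ed_mem' h5) w hw h)).elim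
  have hw2 : w = y ∨ ∃ M, y :: R = M ++ [w] := by
    rcases disa_inner hnd.2.1 hw with ⟨M, h3⟩ | h3 | ⟨a, b, hab, h4, h5⟩
    · left
      exact (List.cons.inj h3).1.symm
    · exact Or.inr h3
    · exact (disa_deg3 (hd w) (hk2 _ _ h4) (hk2 _ _ h5) hBuw.symm hab
        (fun h => huw u hu a (ed_mem' h4) h.symm)
        (fun h => huw u hu b (ed_mem' h5) h.symm)).elim
  -- adjacency in `B`
  have hadj : ∀ a b, B.Adj a b ↔ Ed (L ++ [x]) a b ∨ Ed (y :: R) a b ∨
      (a = u ∧ b = w) ∨ (a = w ∧ b = u) := by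
    intro a b
    constructor
    · intro hab
      rcases hnew a b hab with h3 | h3
      · rcases (hed a b).1 h3 with h4 | ⟨h4, h5⟩ | ⟨h4, h5⟩ | h4
        · exact Or.inl h4
        · exact (hnB (h4 ▸ h5 ▸ hab)).elim
        · exact (hnB ((h4 ▸ h5 ▸ hab : B.Adj y x).symm)).elim
        · exact Or.inr (Or.inl h4)
      · rcases Sym2.eq_iff.1 h3 with h4 | h4
        · exact Or.inr (Or.inr (Or.inl h4))
        · exact Or.inr (Or.inr (Or.inr h4))
    · rintro (h3 | h3 | ⟨rfl, rfl⟩ | ⟨rfl, rfl⟩)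
      · exact hk1 _ _ h3
      · exact hk2 _ _ h3
      · exact hBuw
      · exact hBuw.symm
  rcases hw2 with rfl | ⟨M, hM⟩
  · -- `w = y`: rotation at the first vertex
    rcases hu2 with ⟨M, hM⟩ | rfl
    · right; left
      -- `L ++ [x] = u :: M`
      rcases List.eq_nil_or_concat M with rfl | ⟨M', x', rfl⟩
      · -- `L = []`, `u = x`
        exfalso
        have h3 := congrArg List.getLast? hM
        have h4 : x = u := by simpa using h3
        exact hnuw ((hed u w).2 (Or.inr (Or.inl ⟨h4.symm, rfl⟩)))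
      · have hx' : x = x' := by
          have h3 : L ++ [x] = (u :: M') ++ [x'] := by
            rw [hM, List.concat_eq_append, List.cons_append]
          exact (List.cons.inj (List.append_inj' h3 rfl).2).1
        subst hx'
        rw [List.concat_eq_append] at hM
        -- l = u :: M' ++ [x] ++ w :: R
        have hrot : RotL w u l.reverse ((R.reverse ++ w :: u :: (M' ++ [x]))) := by
          refine ⟨R.reverse, (M' ++ [x]).reverse, ?_, ?_⟩
          · rw [hl', hM]
            simp
          · simp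
        refine ⟨w, u, _, hrot, ?_, hBuw, ?_⟩
        · have hnd' : (R.reverse ++ w :: u :: (M' ++ [x])).Nodup := by
            have h3 := (rotL_perm hrot).nodup_iff
            rw [h3, List.nodup_reverse]
            exact hn
          ext a b
          rw [gr_adj hnd', hadj, hM, ed_mid, ed_cons2]
          have h5 : Ed (R.reverse ++ [w]) a b ↔ Ed (w :: R) a b := by
            rw [← List.reverse_cons, ed_reverse]
          rw [h5]
          tauto
        · intro a b hab
          rcases (hed a b).1 hab with h4 | ⟨h4, h5⟩ | ⟨h4, h5⟩ | h4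
          · exact Or.inl (hk1 _ _ h4)
          · exact Or.inr (Or.inr h5)
          · exact Or.inr (Or.inl h4)
          · exact Or.inl (hk2 _ _ h4)
    · exact (hnuw ((hed u w).2 (Or.inr (Or.inl ⟨rfl, rfl⟩)))).elim
  · rcases hu2 with ⟨M', hM'⟩ | rfl
    · -- the closing edge
      right; right
      -- l = (u :: M') ++ (M ++ [w])
      refine ⟨u, w, M' ++ M, ?_, hBuw, x, y, hkeep⟩
      rw [hl', hM', hM]
      simp
    · -- rotation at the last vertex
      left
      have hrot : RotL u w l (L ++ u :: w :: M.reverse) := by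
        refine ⟨L, M, ?_, rfl⟩
        rw [hl, hM]
      refine ⟨u, w, _, hrot, ?_, hBuw.symm, ?_⟩
      · have hnd' : (L ++ u :: w :: M.reverse).Nodup := by
          have h3 := (rotL_perm hrot).nodup_iff
          rw [h3]
          exact hn
        ext a b
        rw [gr_adj hnd', hadj, ed_mid (A := L) (v := u) (B := w :: M.reverse), ed_cons2]
        have h5 : Ed (w :: M.reverse) a b ↔ Ed (y :: R) a b := by
          rw [hM, ← ed_reverse (l := M ++ [w])]
          simp
        rw [h5]
        tauto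
      · intro a b hab
        rcases (hed a b).1 hab with h4 | ⟨h4, h5⟩ | ⟨h4, h5⟩ | h4
        · exact Or.inl (hk1 _ _ h4)
        · exact Or.inr (Or.inl h4)
        · exact Or.inr (Or.inr h5)
        · exact Or.inl (hk2 _ _ h4)

end FPW
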