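import Pool.Agent.Lib.MP_deef39_co_Dis.DisA

/-! # Dis module B: the disconnection criteria -/

set_option autoImplicit false

namespace FPW

/-- the connectivity statement of the problem for the point family `p` -/
def ConnStmt (n : ℕ) (p : Fin n → ℝ × ℝ) : Prop :=
  ∀ P : SimpleGraph (Fin n) → Prop,
    (∀ A : SimpleGraph (Fin n), P A ↔
      (A.IsTree ∧ (∀ v : Fin n, (A.neighborSet v).ncard ≤ 2) ∧
        ∀ a b c d : Fin n, A.Adj a b → A.Adj c d → s(a, b) ≠ s(c, d) →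
          ∀ x : ℝ × ℝ, x ∈ segment ℝ (p a) (p b) → x ∈ segment ℝ (p c) (p d) →
            (x = p a ∨ x = p b) ∧ (x = p c ∨ x = p d))) →
    ∀ G H : SimpleGraph (Fin n), P G → P H →
      Relation.ReflTransGen
        (fun A B : SimpleGraph (Fin n) =>
          P A ∧ P B ∧ (A.edgeSet \ B.edgeSet).ncard = 1 ∧
            (B.edgeSet \ A.edgeSet).ncard = 1)
        G H

/-- a set of lists closed under flips -/
structure Closed2 {n : ℕ} (p : Fin n → ℝ × ℝ) (I : List (Fin n) → Prop) : Prop where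
  nodup : ∀ l, I l → l.Nodup
  all : ∀ l, I l → ∀ v, v ∈ l
  rev : ∀ l, I l → I l.reverse
  rot : ∀ l v z l', I l → RotL v z l l' → Vis p (Ed l) z v → I l'
  far : ∀ h m z, I (h :: (m ++ [z])) → ∀ x y, ∃ a b, Ed (h :: (m ++ [z])) a b ∧
    s(a, b) ≠ s(x, y) ∧ X p h z a b

theorem dis_core {n : ℕ} {p : Fin n → ℝ × ℝ} (hgp : GP p) {I : List (Fin n) → Prop}
    (hI : Closed2 p I) {l₀ l₁ : List (Fin n)} (h0 : I l₀) (hp0 : Plane p (Ed l₀))
    (hn1 : l₁.Nodup) (ha1 : ∀ v, v ∈ l₁) (hp1 : Plane p (Ed l₁))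
    (hno : ∀ l, I l → gr l ≠ gr l₁) : ¬ ConnStmt n p := by
  intro hC
  by_cases hne : l₀ = []
  · -- `n = 0`
    have h1 : l₁ = [] := by
      cases l₁ with
      | nil => rfl
      | cons a l =>
        have h2 := hI.all _ h0 a
        rw [hne] at h2
        simp at h2
    exact hno l₀ h0 (by rw [hne, h1])
  obtain ⟨P, hP⟩ : ∃ P : SimpleGraph (Fin n) → Prop, ∀ A : SimpleGraph (Fin n), P A ↔
      (A.IsTree ∧ (∀ v : Fin n, (A.neighborSet v).ncard ≤ 2) ∧
        ∀ a b c d : Fin n, A.Adj a b → A.Adj c d → s(a, b) ≠ s(c, d) →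
          ∀ x : ℝ × ℝ, x ∈ segment ℝ (p a) (p b) → x ∈ segment ℝ (p c) (p d) →
            (x = p a ∨ x = p b) ∧ (x = p c ∨ x = p d)) := ⟨_, fun _ => Iff.rfl⟩
  obtain ⟨v0, m0, rfl⟩ := List.exists_cons_of_ne_nil hne
  have hback : ∀ l : List (Fin n), l.Nodup → (∀ v, v ∈ l) → Plane p (Ed l) → P (gr l) := by
    intro l h1 h2 h3
    refine (hP _).2 ⟨gr_tree h1 (List.ne_nil_of_mem (h2 v0)) h2, gr_deg h1, ?_⟩
    intro a b c d hab hcd hs
    have h4 := (gr_adj h1).1 hab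
    have h5 := (gr_adj h1).1 hcd
    exact (seg_iff hgp (ed_ne h1 h4) (ed_ne h1 h5) hs).2 (h3 a b c d h4 h5)
  have hX : ∀ A, P A → ∀ a b c d, A.Adj a b → A.Adj c d → ¬ X p a b c d := by
    intro A hA a b c d hab hcd hX
    have hne := X_ne hX
    by_cases hs : s(a, b) = s(c, d)
    · rcases Sym2.eq_iff.1 hs with ⟨h4, _⟩ | ⟨h4, _⟩
      · exact hne.2.2.1 h4
      · exact hne.2.2.2.1 h4
    · exact (seg_iff hgp hne.1 hne.2.1 hs).1
        (((hP A).1 hA).2.2 a b c d hab hcd hs) hX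
  have hG := hback _ (hI.nodup _ h0) (hI.all _ h0) hp0
  have hH := hback _ hn1 ha1 hp1
  have hrel := hC P hP _ _ hG hH
  have hinv : ∀ B : SimpleGraph (Fin n), Relation.ReflTransGen
      (fun A B : SimpleGraph (Fin n) =>
        P A ∧ P B ∧ (A.edgeSet \ B.edgeSet).ncard = 1 ∧
          (B.edgeSet \ A.edgeSet).ncard = 1) (gr (v0 :: m0)) B → ∃ l, I l ∧ B = gr l := by
    intro B hB
    induction hB with
    | refl => exact ⟨_, h0, rfl⟩
    | @tail A B _ h2 ih =>
      obtain ⟨l, hl, rfl⟩ := ih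
      obtain ⟨_, hPB, h3, h4⟩ := h2
      have hn := hI.nodup l hl
      have hvis : ∀ v z, B.Adj z v → (∀ a b, Ed l a b → B.Adj a b ∨ a = v ∨ b = v) →
          Vis p (Ed l) z v := by
        intro v z hzv hed c d hcd hX'
        rcases hed c d hcd with h5 | h5 | h5
        · exact hX B hPB z v c d hzv h5 hX'
        · exact (X_ne hX').2.2.2.2.1 h5.symm
        · exact (X_ne hX').2.2.2.2.2 h5.symm
      rcases gr_flip hn (hI.all l hl) ((hP B).1 hPB).1 ((hP B).1 hPB).2.1 h3 h4 with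
        ⟨v, z, l', h5, h6, h7, h8⟩ | ⟨v, z, l', h5, h6, h7, h8⟩ | ⟨h, z, m, h5, h6, x, y, h7⟩
      · exact ⟨l', hI.rot l v z l' hl h5 (hvis v z h7 h8), h6⟩
      · refine ⟨l', hI.rot l.reverse v z l' (hI.rev l hl) h5 ?_, h6⟩
        intro c d hcd
        exact hvis v z h7 h8 c d (ed_reverse.1 hcd)
      · exfalso
        subst h5
        obtain ⟨a, b, h8, h9, h10⟩ := hI.far h m z hl x y
        exact hX B hPB h z a b h6 (h7 a b h8 h9) h10
  obtain ⟨l, hl, h1⟩ := hinv _ hrel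
  exact hno l hl h1.symm

/-- a closed class of one-ended paths with root `r` on the vertex set `S`, whose ends see no vertex
outside `S` -/
structure Closed1 {n : ℕ} (p : Fin n → ℝ × ℝ) (C : List (Fin n) → Prop) (S : Fin n → Prop)
    (r : Fin n) : Prop where
  nodup : ∀ l, C l → l.Nodup
  mem : ∀ l, C l → ∀ v, v ∈ l ↔ S v
  head : ∀ l, C l → ∃ m, l = r :: m
  rot : ∀ l v z l', C l → RotL v z l l' → Vis p (Ed l) z v → C l'
  out : ∀ A z, C (A ++ [z]) → ∀ v, ¬ S v → ∃ a b, Ed (A ++ [z]) a b ∧ X p z v a b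

/-- product of two closed one-ended classes -/
def Prod2 {n : ℕ} (C D : List (Fin n) → Prop) (l : List (Fin n)) : Prop :=
  ∃ a b, C a ∧ D b ∧ (l = a.reverse ++ b ∨ l = b.reverse ++ a)

private theorem disb_app {n : ℕ} {a b : List (Fin n)} {x y : Fin n}
    (h : Ed a x y ∨ Ed b x y) : Ed (a ++ b) x y := by
  rcases h with h | h
  · obtain ⟨A, B, h1 | h1⟩ := ed_split h
    · rw [h1, List.append_assoc]
      exact ed_of_split
    · rw [h1, List.append_assoc]
      exact ed_of_split'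
  · obtain ⟨A, B, h1 | h1⟩ := ed_split h
    · rw [h1, ← List.append_assoc]
      exact ed_of_split
    · rw [h1, ← List.append_assoc]
      exact ed_of_split'

/-- rotation in a product at the last vertex -/
private theorem disb_rot {n : ℕ} {p : Fin n → ℝ × ℝ} {C D : List (Fin n) → Prop}
    {S : Fin n → Prop} {r r' : Fin n} (hC : Closed1 p C S r)
    (hD : Closed1 p D (fun v => ¬ S v) r') {a b l' : List (Fin n)} {v z : Fin n} (ha : C a)
    (hb : D b) (h : RotL v z (a.reverse ++ b) l') (hv : Vis p (Ed (a.reverse ++ b)) z v) :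
    ∃ b', D b' ∧ l' = a.reverse ++ b' := by
  obtain ⟨A, B, h1, h2⟩ := h
  obtain ⟨m, hm⟩ := hD.head b hb
  obtain ⟨b₁, z', hz⟩ : ∃ b₁ z', b = b₁ ++ [z'] := by
    rcases List.eq_nil_or_concat b with h3 | ⟨b₁, z', h3⟩
    · rw [h3] at hm
      simp at hm
    · exact ⟨b₁, z', by rw [h3, List.concat_eq_append]⟩
  have hzz : z' = z := by
    have h3 : (a.reverse ++ b₁) ++ [z'] = (A ++ v :: B) ++ [z] := by
      rw [List.append_assoc, ← hz, h1]
      simp
    exact (List.cons.inj (List.append_inj' h3 rfl).2).1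
  subst hzz
  by_cases hSv : S v
  · exfalso
    rw [hz] at hb
    obtain ⟨x, y, h3, h4⟩ := hD.out b₁ z' hb v (fun h5 => h5 hSv)
    exact hv x y (disb_app (Or.inr (hz ▸ h3))) h4
  · have hva : v ∉ a.reverse := by
      rw [List.mem_reverse, hC.mem a ha]
      exact hSv
    rcases List.append_eq_append_iff.1 h1 with ⟨A', h3, h4⟩ | ⟨A', h3, h4⟩
    · -- `A = a.reverse ++ A'`, `b = A' ++ v :: (B ++ [z])`
      refine ⟨A' ++ v :: z' :: B.reverse, ?_, ?_⟩
      · refine hD.rot b v z' _ hb ⟨A', B, h4, rfl⟩ ?_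
        intro c d hcd
        exact hv c d (disb_app (Or.inr hcd))
      · rw [h2, h3, List.append_assoc]
    · -- `a.reverse = A ++ A'`, `v :: (B ++ [z]) = A' ++ b`
      cases A' with
      | nil =>
        rw [List.append_nil] at h3
        rw [List.nil_append] at h4
        refine ⟨v :: z' :: B.reverse, ?_, ?_⟩
        · refine hD.rot b v z' _ hb ⟨[], B, h4.symm, rfl⟩ ?_
          intro c d hcd
          exact hv c d (disb_app (Or.inr hcd))
        · rw [h2, h3]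
      | cons x A' =>
        exfalso
        have h5 : v = x := (List.cons.inj h4).1
        exact hva (by rw [h3, h5]; simp)

private theorem disb_cross {n : ℕ} {p : Fin n → ℝ × ℝ} {C D : List (Fin n) → Prop}
    {S : Fin n → Prop} {r r' : Fin n} (hC : Closed1 p C S r)
    (hD : Closed1 p D (fun v => ¬ S v) r') {a b m : List (Fin n)} {h z : Fin n} (ha : C a)
    (hb : D b) (hl : h :: (m ++ [z]) = a.reverse ++ b) (x y : Fin n) :
    ∃ c d, Ed (a.reverse ++ b) c d ∧ s(c, d) ≠ s(x, y) ∧ X p h z c d := by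
  obtain ⟨ma, hma⟩ := hC.head a ha
  obtain ⟨mb, hmb⟩ := hD.head b hb
  obtain ⟨b₁, z', hz⟩ : ∃ b₁ z', b = b₁ ++ [z'] := by
    rcases List.eq_nil_or_concat b with h3 | ⟨b₁, z', h3⟩
    · rw [h3] at hmb
      simp at hmb
    · exact ⟨b₁, z', by rw [h3, List.concat_eq_append]⟩
  obtain ⟨a₁, h', hh⟩ : ∃ a₁ h', a = a₁ ++ [h'] := by
    rcases List.eq_nil_or_concat a with h3 | ⟨b₁, z', h3⟩
    · rw [h3] at hma
      simp at hma
    · exact ⟨b₁, z', by rw [h3, List.concat_eq_append]⟩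
  have hzz : z' = z := by
    have h3 : (a.reverse ++ b₁) ++ [z'] = (h :: m) ++ [z] := by
      rw [List.append_assoc, ← hz, ← hl]
      simp
    exact (List.cons.inj (List.append_inj' h3 rfl).2).1
  have hhh : h = h' := by
    rw [hh] at hl
    simp only [List.reverse_append, List.reverse_cons, List.reverse_nil, List.nil_append,
      List.cons_append] at hl
    exact (List.cons.inj hl).1
  subst hzz hhh
  have hSz : ¬ S z' := (hD.mem b hb z').1 (by rw [hz]; simp)
  have hSh : S h := (hC.mem a ha h).1 (by rw [hh]; simp)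
  rw [hh] at ha
  rw [hz] at hb
  obtain ⟨c, d, h1, h2⟩ := hC.out a₁ h ha z' hSz
  obtain ⟨c', d', h3, h4⟩ := hD.out b₁ z' hb h (fun h5 => h5 hSh)
  have hcS : S c := (hC.mem _ ha c).1 (ed_mem h1)
  have hdS : S d := (hC.mem _ ha d).1 (ed_mem' h1)
  have hcS' : ¬ S c' := (hD.mem _ hb c').1 (ed_mem h3)
  have hdS' : ¬ S d' := (hD.mem _ hb d').1 (ed_mem' h3)
  by_cases hxy : S x
  · refine ⟨c', d', disb_app (Or.inr (hz ▸ h3)), ?_, X_sw1.1 h4⟩
    intro h5
    rcases Sym2.eq_iff.1 h5 with ⟨h6, _⟩ | ⟨_, h6⟩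
    · exact hcS' (h6 ▸ hxy)
    · exact hdS' (h6 ▸ hxy)
  · refine ⟨c, d, disb_app (Or.inl (ed_reverse.2 (hh ▸ h1))), ?_, h2⟩
    intro h5
    rcases Sym2.eq_iff.1 h5 with ⟨h6, _⟩ | ⟨_, h6⟩
    · exact hxy (h6 ▸ hcS)
    · exact hxy (h6 ▸ hdS)

theorem prod2_closed {n : ℕ} {p : Fin n → ℝ × ℝ} {C D : List (Fin n) → Prop}
    {S S' : Fin n → Prop} {r r' : Fin n} (hS : ∀ v, S' v ↔ ¬ S v) (hC : Closed1 p C S r)
    (hD' : Closed1 p D S' r') : Closed2 p (Prod2 C D) := by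
  have hD : Closed1 p D (fun v => ¬ S v) r' := by
    have h1 : S' = fun v => ¬ S v := funext fun v => propext (hS v)
    rw [← h1]
    exact hD'
  have hC2 : Closed1 p C (fun v => ¬ ¬ S v) r := by
    have h1 : S = fun v => ¬ ¬ S v := funext fun v => propext not_not.symm
    rw [← h1]
    exact hC
  have hnd : ∀ a b, C a → D b → (a.reverse ++ b).Nodup := by
    intro a b ha hb
    rw [List.nodup_append]
    refine ⟨List.nodup_reverse.2 (hC.nodup a ha), hD.nodup b hb, ?_⟩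
    intro x hx y hy hxy
    subst hxy
    rw [List.mem_reverse, hC.mem a ha] at hx
    exact (hD.mem b hb x).1 hy hx
  have hrv : ∀ a b : List (Fin n), (a.reverse ++ b).reverse = b.reverse ++ a := by
    intro a b
    rw [List.reverse_append, List.reverse_reverse]
  refine ⟨?_, ?_, ?_, ?_, ?_⟩
  · rintro l ⟨a, b, ha, hb, rfl | rfl⟩
    · exact hnd a b ha hb
    · rw [← hrv, List.nodup_reverse]
      exact hnd a b ha hb
  · rintro l ⟨a, b, ha, hb, rfl | rfl⟩ v
    · rw [List.mem_append, List.mem_reverse, hC.mem a ha, hD.mem b hb]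
      exact em _
    · rw [List.mem_append, List.mem_reverse, hC.mem a ha, hD.mem b hb]
      exact (em _).symm
  · rintro l ⟨a, b, ha, hb, rfl | rfl⟩
    · exact ⟨a, b, ha, hb, Or.inr (hrv a b)⟩
    · exact ⟨a, b, ha, hb, Or.inl (hrv b a)⟩
  · rintro l v z l' ⟨a, b, ha, hb, rfl | rfl⟩ hr hv
    · obtain ⟨b', h1, h2⟩ := disb_rot hC hD ha hb hr hv
      exact ⟨a, b', ha, h1, Or.inl h2⟩
    · obtain ⟨a', h1, h2⟩ := disb_rot hD hC2 hb ha hr hv
      exact ⟨a', b, h1, hb, Or.inr h2⟩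
  · rintro h m z ⟨a, b, ha, hb, hl | hl⟩ x y
    · rw [hl]
      exact disb_cross hC hD ha hb hl x y
    · rw [hl]
      exact disb_cross hD hC2 hb ha hl x y

theorem dis_prod {n : ℕ} {p : Fin n → ℝ × ℝ} (hgp : GP p) {C D : List (Fin n) → Prop}
    {S S' : Fin n → Prop} {r r' : Fin n} (hS : ∀ v, S' v ↔ ¬ S v) (hC : Closed1 p C S r)
    (hD : Closed1 p D S' r') {a₀ b₀ l₁ : List (Fin n)} (ha : C a₀) (hb : D b₀)
    (hp0 : Plane p (Ed (a₀.reverse ++ b₀))) (hn1 : l₁.Nodup) (ha1 : ∀ v, v ∈ l₁)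
    (hp1 : Plane p (Ed l₁)) (hno : ¬ Ed l₁ r r') : ¬ ConnStmt n p := by
  refine dis_core hgp (prod2_closed hS hC hD) (l₀ := a₀.reverse ++ b₀)
    ⟨a₀, b₀, ha, hb, Or.inl rfl⟩ hp0 hn1 ha1 hp1 ?_
  have hkey : ∀ a b, C a → D b → Ed (a.reverse ++ b) r r' := by
    intro a b ha hb
    obtain ⟨m, hm⟩ := hC.head a ha
    obtain ⟨m', hm'⟩ := hD.head b hb
    rw [hm, hm', List.reverse_cons, List.append_assoc]
    exact ed_of_split
  rintro l hl hgr
  have hl2 := hl
  obtain ⟨a, b, ha, hb, h1⟩ := hl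
  have hE : Ed l r r' := by
    rcases h1 with rfl | rfl
    · exact hkey a b ha hb
    · have h2 := hkey a b ha hb
      rw [← ed_reverse, List.reverse_append, List.reverse_reverse] at h2
      exact h2
  have hadj : (gr l).Adj r r' := ⟨ed_ne ((prod2_closed hS hC hD).nodup l hl2) hE, hE⟩
  rw [hgr] at hadj
  exact hno hadj.2

/-- the negated frozen statement from one bad point family -/
theorem dis_frozen {n : ℕ} {p : Fin n → ℝ × ℝ} (hi : Function.Injective p)
    (hc : ∀ i j k : Fin n, i ≠ j → j ≠ k → i ≠ k →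
      ¬ Collinear ℝ ({p i, p j, p k} : Set (ℝ × ℝ))) (h : ¬ ConnStmt n p) :
    ¬ (∀ (n : ℕ) (p : Fin n → ℝ × ℝ), Function.Injective p →
      (∀ i j k : Fin n, i ≠ j → j ≠ k → i ≠ k →
        ¬ Collinear ℝ ({p i, p j, p k} : Set (ℝ × ℝ))) →
      ∀ P : SimpleGraph (Fin n) → Prop,
        (∀ A : SimpleGraph (Fin n), P A ↔
          (A.IsTree ∧ (∀ v : Fin n, (A.neighborSet v).ncard ≤ 2) ∧
            ∀ a b c d : Fin n, A.Adj a b → A.Adj c d → s(a, b) ≠ s(c, d) →
              ∀ x : ℝ × ℝ, x ∈ segment ℝ (p a) (p b) → x ∈ segment ℝ (p c) (p d) →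
                (x = p a ∨ x = p b) ∧ (x = p c ∨ x = p d))) →
        ∀ G H : SimpleGraph (Fin n), P G → P H →
          Relation.ReflTransGen
            (fun A B : SimpleGraph (Fin n) =>
              P A ∧ P B ∧ (A.edgeSet \ B.edgeSet).ncard = 1 ∧
                (B.edgeSet \ A.edgeSet).ncard = 1)
            G H) :=
  fun hall => h (hall n p hi hc)

end FPW
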