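import Pool.Agent.Lib.MP_deef39_co_Dis.DisB

/-! # Dis module C: the check in natural numbers

Points have natural coordinates `pts`. `omk a b pts` is the bit mask of the points on the left of
`a b`; `xmk` the mask of the pairs `(c, d)` (bit `n * c + d`), `c` on the left and `d` on the right
of `a b`, whose segment crosses `a b`. States (paths) are coded in base `256`.
-/

set_option autoImplicit false

namespace FPW

/-- search tree of codes -/
inductive TS where
  | nil : TS
  | node : TS → ℕ → TS → TS

/-- membership -/
def TS.In : TS → ℕ → Prop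
  | TS.nil, _ => False
  | TS.node l k r, x => x = k ∨ l.In x ∨ r.In x

/-- search -/
def TS.mem : TS → ℕ → Bool
  | TS.nil, _ => false
  | TS.node l k r, x =>
    cond (Nat.beq x k) true (cond (Nat.ble x k) (TS.mem l x) (TS.mem r x))

/-- check of all nodes -/
def TS.all (f : ℕ → Bool) : TS → Bool
  | TS.nil => true
  | TS.node l k r => cond (f k) (cond (TS.all f l) (TS.all f r) false) false

theorem TS.in_of_mem {t : TS} {x : ℕ} (h : t.mem x = true) : t.In x := by
  induction t with
  | nil => simp [TS.mem] at h
  | node l k r ihl ihr =>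
    rw [TS.mem] at h
    cases h1 : Nat.beq x k with
    | true => exact Or.inl (Nat.eq_of_beq_eq_true h1)
    | false =>
      rw [h1, cond_false] at h
      cases h2 : Nat.ble x k with
      | true =>
        rw [h2, cond_true] at h
        exact Or.inr (Or.inl (ihl h))
      | false =>
        rw [h2, cond_false] at h
        exact Or.inr (Or.inr (ihr h))

theorem TS.of_all {f : ℕ → Bool} {t : TS} (h : t.all f = true) {x : ℕ} (hx : t.In x) :
    f x = true := by
  induction t with
  | nil => exact hx.elim
  | node l k r ihl ihr =>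
    rw [TS.all] at h
    cases h1 : f k with
    | false => rw [h1] at h; simp at h
    | true =>
      cases h2 : TS.all f l with
      | false => rw [h1, h2] at h; simp at h
      | true =>
        rw [h1, h2, cond_true, cond_true] at h
        rcases hx with rfl | hx | hx
        · exact h1
        · exact ihl h2 hx
        · exact ihr h hx

theorem TS.all_node {f : ℕ → Bool} {l r : TS} {k : ℕ} (h1 : f k = true)
    (h2 : l.all f = true) (h3 : r.all f = true) : (TS.node l k r).all f = true := by
  rw [TS.all, h1, h2, h3]
  rfl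

/-- decoding -/
def dec : ℕ → ℕ → List ℕ
  | 0, _ => []
  | m + 1, c => Nat.mod c 256 :: dec m (Nat.div c 256)

/-- coding -/
def enc : List ℕ → ℕ
  | [] => 0
  | a :: s => Nat.add a (Nat.mul 256 (enc s))

theorem dec_enc {s : List ℕ} (h : ∀ a ∈ s, a < 256) : dec s.length (enc s) = s := by
  induction s with
  | nil => rfl
  | cons a s ih =>
    have ha : a < 256 := h a (by simp)
    have h1 : enc (a :: s) = a + 256 * enc s := rfl
    have h2 : Nat.mod (enc (a :: s)) 256 = a := by
      have h3 : (a + 256 * enc s) % 256 = a := by omega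
      rw [h1]
      exact h3
    have h4 : Nat.div (enc (a :: s)) 256 = enc s := by
      have h3 : (a + 256 * enc s) / 256 = enc s := by omega
      rw [h1]
      exact h3
    rw [List.length_cons, dec, h2, h4, ih fun b hb => h b (List.mem_cons_of_mem _ hb)]

/-- rotation at `v` -/
def rotAt (v : ℕ) : List ℕ → List ℕ
  | [] => []
  | a :: s => cond (Nat.beq a v) (a :: s.reverse) (a :: rotAt v s)

theorem rotAt_eq {v : ℕ} {A T : List ℕ} (h : v ∉ A) :
    rotAt v (A ++ v :: T) = A ++ v :: T.reverse := by
  induction A with
  | nil =>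
    have h1 : Nat.beq v v = true := Nat.beq_refl v
    rw [List.nil_append, rotAt, h1]
    rfl
  | cons a A ih =>
    have h1 : Nat.beq a v = false := by
      cases h2 : Nat.beq a v with
      | false => rfl
      | true =>
        exfalso
        exact h (by rw [Nat.eq_of_beq_eq_true h2]; simp)
    rw [List.cons_append, rotAt, h1, cond_false, ih fun h2 => h (List.mem_cons_of_mem _ h2)]
    rfl

/-- edge mask: bits `n * a + b` and `n * b + a` for the edges `a b` -/
def em (n : ℕ) : List ℕ → ℕ
  | [] => 0
  | a :: s => match s with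
    | [] => 0
    | b :: _ => Nat.lor (Nat.lor (Nat.pow 2 (Nat.add (Nat.mul n a) b))
        (Nat.pow 2 (Nat.add (Nat.mul n b) a))) (em n s)

theorem em_bit {n : ℕ} {s : List ℕ} {i : ℕ} :
    (em n s).testBit i = true ↔ ∃ a b, i = n * a + b ∧ Ed s a b := by
  induction s with
  | nil => simp [em, ed_nil]
  | cons a s ih =>
    cases s with
    | nil => simp [em, ed_single]
    | cons b s =>
      have h1 : em n (a :: b :: s) = (2 ^ (n * a + b) ||| 2 ^ (n * b + a)) ||| em n (b :: s) := rfl
      rw [h1, Nat.testBit_or, Nat.testBit_or, Bool.or_eq_true, Bool.or_eq_true, ih,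
        Nat.testBit_two_pow, Nat.testBit_two_pow, decide_eq_true_eq, decide_eq_true_eq]
      constructor
      · rintro ((h | h) | ⟨c, d, h2, h3⟩)
        · exact ⟨a, b, h.symm, Or.inl ⟨rfl, rfl⟩⟩
        · exact ⟨b, a, h.symm, Or.inr (Or.inl ⟨rfl, rfl⟩)⟩
        · exact ⟨c, d, h2, Or.inr (Or.inr h3)⟩
      · rintro ⟨c, d, h2, ⟨rfl, rfl⟩ | ⟨rfl, rfl⟩ | h3⟩
        · exact Or.inl (Or.inl h2.symm)
        · exact Or.inl (Or.inr h2.symm)
        · exact Or.inr ⟨c, d, h2, h3⟩

/-- left turn -/
def posN (a b c : ℕ × ℕ) : Bool :=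
  cond (Nat.ble
    (Nat.add (Nat.add (Nat.mul a.1 b.2) (Nat.mul b.1 c.2)) (Nat.mul c.1 a.2))
    (Nat.add (Nat.add (Nat.mul a.1 c.2) (Nat.mul b.1 a.2)) (Nat.mul c.1 b.2))) false true

theorem posN_iff {a b c : ℕ × ℕ} : posN a b c = true ↔
    a.1 * c.2 + b.1 * a.2 + c.1 * b.2 < a.1 * b.2 + b.1 * c.2 + c.1 * a.2 := by
  unfold posN
  constructor
  · intro h
    by_contra hlt
    have h1 : Nat.ble (Nat.add (Nat.add (Nat.mul a.1 b.2) (Nat.mul b.1 c.2)) (Nat.mul c.1 a.2))
        (Nat.add (Nat.add (Nat.mul a.1 c.2) (Nat.mul b.1 a.2)) (Nat.mul c.1 b.2)) = true :=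
      Nat.ble_eq_true_of_le (not_lt.1 hlt)
    rw [h1] at h
    simp at h
  · intro h
    cases h1 : Nat.ble
      (Nat.add (Nat.add (Nat.mul a.1 b.2) (Nat.mul b.1 c.2)) (Nat.mul c.1 a.2))
      (Nat.add (Nat.add (Nat.mul a.1 c.2) (Nat.mul b.1 a.2)) (Nat.mul c.1 b.2)) with
    | false => rfl
    | true =>
      exfalso
      exact absurd (Nat.le_of_ble_eq_true h1) (not_le.2 h)

/-- mask of the points of `pts` on the left of `a b` -/
def omk (a b : ℕ × ℕ) : List (ℕ × ℕ) → ℕ
  | [] => 0
  | c :: pts => Nat.add (cond (posN a b c) 1 0) (Nat.mul 2 (omk a b pts))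

theorem omk_bit {a b : ℕ × ℕ} {pts : List (ℕ × ℕ)} {i : ℕ} :
    (omk a b pts).testBit i = true ↔ ∃ h : i < pts.length, posN a b pts[i] = true := by
  induction pts generalizing i with
  | nil => simp [omk]
  | cons c pts ih =>
    have h1 : omk a b (c :: pts) = (cond (posN a b c) 1 0) + 2 * omk a b pts := rfl
    cases i with
    | zero =>
      rw [h1, Nat.testBit_zero]
      cases h2 : posN a b c with
      | true => simp [Nat.add_mod, h2]
      | false => simp [h2]
    | succ i =>
      rw [h1, Nat.testBit_succ]
      have h3 : ((cond (posN a b c) 1 0) + 2 * omk a b pts) / 2 = omk a b pts := by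
        cases posN a b c with
        | true => rw [cond_true]; omega
        | false => rw [cond_false]; omega
      rw [h3, ih]
      simp

theorem omk_lt {a b : ℕ × ℕ} {pts : List (ℕ × ℕ)} : omk a b pts < 2 ^ pts.length := by
  induction pts with
  | nil => simp [omk]
  | cons c pts ih =>
    have h1 : omk a b (c :: pts) = (cond (posN a b c) 1 0) + 2 * omk a b pts := rfl
    have h2 : (cond (posN a b c) 1 0 : ℕ) ≤ 1 := by cases posN a b c <;> simp
    rw [h1, List.length_cons, pow_succ]
    omega

/-- mask of the crossing pairs; `m` = left mask, `w` = right mask of `a b`, lists: the left masks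
of `a c`, `b c`, `N = 2 ^ n` -/
def xmk (N w : ℕ) : ℕ → List ℕ → List ℕ → ℕ
  | m, ra :: A, rb :: B =>
    Nat.add (cond (Nat.beq (Nat.mod m 2) 1) (Nat.land w (Nat.xor ra rb)) 0)
      (Nat.mul N (xmk N w (Nat.div m 2) A B))
  | _, _, _ => 0

theorem xmk_bit {n w : ℕ} (hw : w < 2 ^ n) {m : ℕ} {A B : List ℕ} (hAB : A.length = B.length)
    {c d : ℕ} (hd : d < n) :
    (xmk (2 ^ n) w m A B).testBit (n * c + d) = true ↔
      ∃ (h : c < A.length) (h' : c < B.length), m.testBit c = true ∧ w.testBit d = true ∧
        (A[c].testBit d ≠ B[c].testBit d) := by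
  induction A generalizing m B c with
  | nil => simp [xmk]
  | cons ra A ih =>
    cases B with
    | nil => simp at hAB
    | cons rb B =>
      have hAB' : A.length = B.length := by simpa using hAB
      have h1 : xmk (2 ^ n) w m (ra :: A) (rb :: B) =
          2 ^ n * xmk (2 ^ n) w (m / 2) A B +
            (cond (Nat.beq (m % 2) 1) (w &&& (ra ^^^ rb)) 0) := by
        rw [Nat.add_comm]
        rfl
      have hlt : (cond (Nat.beq (m % 2) 1) (w &&& (ra ^^^ rb)) 0) < 2 ^ n := by
        cases Nat.beq (m % 2) 1 with
        | true => rw [cond_true]; exact lt_of_le_of_lt Nat.and_le_left hw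
        | false => rw [cond_false]; exact Nat.two_pow_pos n
      rw [h1, Nat.testBit_two_pow_mul_add _ hlt]
      cases c with
      | zero =>
        rw [Nat.mul_zero, Nat.zero_add, if_pos hd]
        have h2 : m.testBit 0 = Nat.beq (m % 2) 1 := by
          rw [Nat.testBit_zero]
          cases h3 : Nat.beq (m % 2) 1 with
          | true =>
            have h4 := Nat.eq_of_beq_eq_true h3
            simp [h4]
          | false =>
            have h4 : m % 2 ≠ 1 := fun h5 => by
              rw [h5] at h3
              simp [Nat.beq] at h3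
            simp [h4]
        cases h3 : Nat.beq (m % 2) 1 with
        | true =>
          rw [h3] at h2
          rw [cond_true, Nat.testBit_and, Nat.testBit_xor]
          simp [h2]
        | false =>
          rw [h3] at h2
          simp [h2]
      | succ c =>
        have h2 : ¬ n * (c + 1) + d < n := by
          rw [Nat.mul_succ]
          omega
        have h3 : n * (c + 1) + d - n = n * c + d := by
          rw [Nat.mul_succ]
          omega
        rw [if_neg h2, h3, ih hAB', Nat.testBit_succ]
        simp

/-- entry of a list of masks -/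
def nthN : List ℕ → ℕ → ℕ
  | [], _ => 0
  | a :: _, 0 => a
  | _ :: l, i + 1 => nthN l i

/-- row of a table of masks -/
def nthL : List (List ℕ) → ℕ → List ℕ
  | [], _ => []
  | a :: _, 0 => a
  | _ :: l, i + 1 => nthL l i

theorem nthN_eq {l : List ℕ} {i : ℕ} (h : i < l.length) : nthN l i = l[i] := by
  induction l generalizing i with
  | nil => simp at h
  | cons a l ih =>
    cases i with
    | zero => rfl
    | succ i =>
      rw [nthN, ih (by simpa using h)]
      simp

theorem nthL_eq {l : List (List ℕ)} {i : ℕ} (h : i < l.length) : nthL l i = l[i] := by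
  induction l generalizing i with
  | nil => simp at h
  | cons a l ih =>
    cases i with
    | zero => rfl
    | succ i =>
      rw [nthL, ih (by simpa using h)]
      simp

end FPW
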