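import Pool.Agent.Lib.MP_deef39_co_Dis.DisC

/-! # Dis module D: soundness of the tables -/

set_option autoImplicit false

namespace FPW

/-- entry of the list of points -/
def nthP : List (ℕ × ℕ) → ℕ → ℕ × ℕ
  | [], _ => (0, 0)
  | a :: _, 0 => a
  | _ :: l, i + 1 => nthP l i

theorem nthP_eq {l : List (ℕ × ℕ)} {i : ℕ} (h : i < l.length) : nthP l i = l[i] := by
  induction l generalizing i with
  | nil => simp at h
  | cons a l ih =>
    cases i with
    | zero => rfl
    | succ i =>
      rw [nthP, ih (by simpa using h)]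
      simp

/-- the point family -/
def cfg (pts : List (ℕ × ℕ)) (n : ℕ) : Fin n → ℝ × ℝ :=
  fun i => (((nthP pts i).1 : ℝ), ((nthP pts i).2 : ℝ))

/-- all numbers below `n` -/
def allN : ℕ → (ℕ → Bool) → Bool
  | 0, _ => true
  | k + 1, f => cond (f k) (allN k f) false

theorem allN_spec {n : ℕ} {f : ℕ → Bool} (h : allN n f = true) : ∀ k < n, f k = true := by
  induction n with
  | zero => intro k hk; omega
  | succ n ih =>
    intro k hk
    rw [allN] at h
    cases h1 : f n with
    | false => rw [h1] at h; simp at h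
    | true =>
      rw [h1, cond_true] at h
      rcases Nat.lt_succ_iff_lt_or_eq.1 hk with h2 | rfl
      · exact ih h k h2
      · exact h1

theorem cond_false_iff {a b : Bool} : cond a b false = true ↔ a = true ∧ b = true := by
  cases a <;> simp

theorem beq_nat_iff {a b : ℕ} : Nat.beq a b = true ↔ a = b :=
  ⟨Nat.eq_of_beq_eq_true, fun h => by rw [h]; exact Nat.beq_refl b⟩

/-- the check of the tables of orientations and crossings; `N = 2 ^ n` -/
def chkT (n N : ℕ) (pts : List (ℕ × ℕ)) (OT XT : List (List ℕ)) : Bool :=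
  allN n fun a =>
    cond (Nat.beq (nthL OT a).length n) (cond (Nat.beq (nthL XT a).length n)
      (allN n fun b =>
        cond (Nat.beq (nthN (nthL OT a) b) (omk (nthP pts a) (nthP pts b) pts))
          (cond (Nat.beq (nthN (nthL XT a) b)
              (xmk N (nthN (nthL OT b) a) (nthN (nthL OT a) b) (nthL OT a) (nthL OT b)))
            (cond (Nat.beq a b) true
              (Nat.beq (Nat.lor (Nat.lor (nthN (nthL OT a) b) (nthN (nthL OT b) a))
                (Nat.lor (Nat.pow 2 a) (Nat.pow 2 b))) (Nat.sub N 1)))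
            false) false) false) false

/-- what the check gives -/
structure TabOK (n : ℕ) (pts : List (ℕ × ℕ)) (OT XT : List (List ℕ)) : Prop where
  lenO : ∀ a < n, (nthL OT a).length = n
  lenX : ∀ a < n, (nthL XT a).length = n
  ot : ∀ a < n, ∀ b < n, nthN (nthL OT a) b = omk (nthP pts a) (nthP pts b) pts
  xt : ∀ a < n, ∀ b < n, nthN (nthL XT a) b =
    xmk (2 ^ n) (nthN (nthL OT b) a) (nthN (nthL OT a) b) (nthL OT a) (nthL OT b)
  gp : ∀ a < n, ∀ b < n, a ≠ b →
    (nthN (nthL OT a) b ||| nthN (nthL OT b) a) ||| (2 ^ a ||| 2 ^ b) = 2 ^ n - 1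

theorem tab_ok {n N : ℕ} {pts : List (ℕ × ℕ)} {OT XT : List (List ℕ)} (hN : N = 2 ^ n)
    (h : chkT n N pts OT XT = true) : TabOK n pts OT XT := by
  subst hN
  have h1 := fun a (ha : a < n) => allN_spec h a ha
  simp only [cond_false_iff, beq_nat_iff] at h1
  have h2 := fun a (ha : a < n) b (hb : b < n) => allN_spec (h1 a ha).2.2 b hb
  simp only [cond_false_iff, beq_nat_iff] at h2
  refine ⟨fun a ha => (h1 a ha).1, fun a ha => (h1 a ha).2.1,
    fun a ha b hb => (h2 a ha b hb).1, fun a ha b hb => (h2 a ha b hb).2.1, ?_⟩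
  intro a ha b hb hab
  have h3 := (h2 a ha b hb).2.2
  have h4 : Nat.beq a b = false := by
    cases h5 : Nat.beq a b with
    | false => rfl
    | true => exact absurd (beq_nat_iff.1 h5) hab
  rw [h4, cond_false, beq_nat_iff] at h3
  exact h3

theorem pos_cfg {n : ℕ} {pts : List (ℕ × ℕ)} (a b c : Fin n) :
    posN (nthP pts a) (nthP pts b) (nthP pts c) = true ↔ 0 < o (cfg pts n) a b c := by
  rw [posN_iff]
  unfold o cfg
  generalize nthP pts a = A
  generalize nthP pts b = B
  generalize nthP pts c = C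
  rw [← Nat.cast_lt (α := ℝ)]
  push_cast
  constructor
  · intro h
    nlinarith
  · intro h
    nlinarith

section

variable {n : ℕ} {pts : List (ℕ × ℕ)} {OT XT : List (List ℕ)}

theorem ot_bit (hl : pts.length = n) (h : TabOK n pts OT XT) (a b c : Fin n) :
    (nthN (nthL OT a) b).testBit c = true ↔ 0 < o (cfg pts n) a b c := by
  rw [h.ot a a.2 b b.2, omk_bit, ← pos_cfg]
  have hc : (c : ℕ) < pts.length := by rw [hl]; exact c.2
  constructor
  · rintro ⟨_, h1⟩
    rw [nthP_eq hc]
    exact h1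
  · intro h1
    refine ⟨hc, ?_⟩
    rw [nthP_eq hc] at h1
    exact h1

theorem tab_gp (hl : pts.length = n) (hn : 3 ≤ n) (h : TabOK n pts OT XT) :
    GP (cfg pts n) := by
  have hne : ∀ a b c : Fin n, a ≠ b → b ≠ c → a ≠ c → o (cfg pts n) a b c ≠ 0 := by
    intro a b c hab hbc hac h0
    have h1 := h.gp a a.2 b b.2 (fun h2 => hab (Fin.ext h2))
    have h2 := congrArg (fun x => Nat.testBit x c) h1
    simp only [Nat.testBit_or, Nat.testBit_two_pow_sub_one, c.2, decide_true] at h2
    have h3 : (2 ^ (a : ℕ)).testBit c = false := by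
      rw [Nat.testBit_two_pow]
      exact decide_eq_false fun h4 => hac (Fin.ext h4)
    have h4 : (2 ^ (b : ℕ)).testBit c = false := by
      rw [Nat.testBit_two_pow]
      exact decide_eq_false fun h5 => hbc (Fin.ext h5)
    rw [h3, h4, Bool.or_false, Bool.or_false, Bool.or_eq_true] at h2
    rcases h2 with h5 | h5
    · have h6 := (ot_bit hl h a b c).1 h5
      rw [h0] at h6
      exact lt_irrefl _ h6
    · have h6 := (ot_bit hl h b a c).1 h5
      rw [o_swap, h0] at h6
      simp at h6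
  refine ⟨?_, hne⟩
  intro a b hab
  by_contra hne'
  obtain ⟨c, hca, hcb⟩ : ∃ c : Fin n, a ≠ c ∧ b ≠ c := by
    by_contra hno
    push Not at hno
    have h0 := hno ⟨0, by omega⟩
    have h1 := hno ⟨1, by omega⟩
    have h2 := hno ⟨2, by omega⟩
    have hv : (a : ℕ) ≠ b := fun h => hne' (Fin.ext h)
    by_cases ha0 : a = ⟨0, by omega⟩
    · by_cases ha1 : a = ⟨1, by omega⟩
      · rw [ha0] at ha1
        simp [Fin.ext_iff] at ha1
      · by_cases ha2 : a = ⟨2, by omega⟩
        · rw [ha0] at ha2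
          simp [Fin.ext_iff] at ha2
        · have h3 := h1 ha1
          have h4 := h2 ha2
          rw [h3] at h4
          simp [Fin.ext_iff] at h4
    · have h3 := h0 ha0
      by_cases ha1 : a = ⟨1, by omega⟩
      · by_cases ha2 : a = ⟨2, by omega⟩
        · rw [ha1] at ha2
          simp [Fin.ext_iff] at ha2
        · have h4 := h2 ha2
          rw [h3] at h4
          simp [Fin.ext_iff] at h4
      · have h4 := h1 ha1
        rw [h3] at h4
        simp [Fin.ext_iff] at h4
  refine hne a b c hne' hcb hca ?_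
  unfold o
  rw [hab]
  ring

theorem xt_bit (hl : pts.length = n) (h : TabOK n pts OT XT) (a b c d : Fin n) :
    (nthN (nthL XT a) b).testBit (n * c + d) = true ↔
      0 < o (cfg pts n) a b c ∧ o (cfg pts n) a b d < 0 ∧
        ((0 < o (cfg pts n) a c d) ↔ ¬ (0 < o (cfg pts n) b c d)) := by
  have hw : nthN (nthL OT b) a < 2 ^ n := by
    rw [h.ot b b.2 a a.2]
    have h1 := omk_lt (a := nthP pts b) (b := nthP pts a) (pts := pts)
    rw [hl] at h1
    exact h1
  have hla := h.lenO a a.2
  have hlb := h.lenO b b.2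
  rw [h.xt a a.2 b b.2, xmk_bit hw (by rw [hla, hlb]) d.2]
  have hca : (c : ℕ) < (nthL OT a).length := by rw [hla]; exact c.2
  have hcb : (c : ℕ) < (nthL OT b).length := by rw [hlb]; exact c.2
  have h1 : ∀ (hc : (c : ℕ) < (nthL OT a).length), ((nthL OT a)[(c : ℕ)]).testBit d = true ↔
      0 < o (cfg pts n) a c d := by
    intro hc
    rw [← nthN_eq hc]
    exact ot_bit hl h a c d
  have h2 : ∀ (hc : (c : ℕ) < (nthL OT b).length), ((nthL OT b)[(c : ℕ)]).testBit d = true ↔
      0 < o (cfg pts n) b c d := by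
    intro hc
    rw [← nthN_eq hc]
    exact ot_bit hl h b c d
  have h3 : o (cfg pts n) b a d = - o (cfg pts n) a b d := o_swap _ _ _ _
  have h4 : (nthN (nthL OT b) a).testBit d = true ↔ o (cfg pts n) a b d < 0 := by
    rw [ot_bit hl h b a d, h3]
    exact neg_pos
  have h5 : ∀ x y : Bool, x ≠ y ↔ ((x = true) ↔ ¬ (y = true)) := by
    intro x y
    cases x <;> cases y <;> simp
  constructor
  · rintro ⟨_, _, h6, h7, h8⟩
    refine ⟨(ot_bit hl h a b c).1 h6, h4.1 h7, ?_⟩
    rw [← h1 hca, ← h2 hcb, ← h5]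
    exact h8
  · rintro ⟨h6, h7, h8⟩
    refine ⟨hca, hcb, (ot_bit hl h a b c).2 h6, h4.2 h7, ?_⟩
    rw [h5, h1 hca, h2 hcb]
    exact h8

theorem X_of_bit (hl : pts.length = n) (hn : 3 ≤ n) (h : TabOK n pts OT XT) {a b c d : Fin n}
    (h1 : (nthN (nthL XT a) b).testBit (n * c + d) = true) : X (cfg pts n) a b c d := by
  have hgp := tab_gp hl hn h
  obtain ⟨h2, h3, h4⟩ := (xt_bit hl h a b c d).1 h1
  have hab : a ≠ b := by
    rintro rfl
    have h5 : o (cfg pts n) a a c = 0 := by unfold o; ring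
    rw [h5] at h2
    exact lt_irrefl _ h2
  have hac : a ≠ c := by
    rintro rfl
    have h5 : o (cfg pts n) a b a = 0 := by unfold o; ring
    rw [h5] at h2
    exact lt_irrefl _ h2
  have hbc : b ≠ c := by
    rintro rfl
    have h5 : o (cfg pts n) a b b = 0 := by unfold o; ring
    rw [h5] at h2
    exact lt_irrefl _ h2
  have had : a ≠ d := by
    rintro rfl
    have h5 : o (cfg pts n) a b a = 0 := by unfold o; ring
    rw [h5] at h3
    exact lt_irrefl _ h3
  have hbd : b ≠ d := by
    rintro rfl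
    have h5 : o (cfg pts n) a b b = 0 := by unfold o; ring
    rw [h5] at h3
    exact lt_irrefl _ h3
  have hcd : c ≠ d := by
    rintro rfl
    exact lt_asymm h2 h3
  have e1 : o (cfg pts n) c d a = o (cfg pts n) a c d := by unfold o; ring
  have e2 : o (cfg pts n) c d b = o (cfg pts n) b c d := by unfold o; ring
  refine ⟨mul_neg_of_pos_of_neg h2 h3, ?_⟩
  rw [e1, e2]
  have n1 := hgp.ne a c d hac hcd had
  have n2 := hgp.ne b c d hbc hcd hbd
  rcases lt_or_gt_of_ne n1 with h5 | h5
  · rcases lt_or_gt_of_ne n2 with h6 | h6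
    · exact absurd (h4.2 (not_lt.2 h6.le)) (not_lt.2 h5.le)
    · exact mul_neg_of_neg_of_pos h5 h6
  · rcases lt_or_gt_of_ne n2 with h6 | h6
    · exact mul_neg_of_pos_of_neg h5 h6
    · exact absurd h6 (h4.1 h5)

theorem bit_of_X (hl : pts.length = n) (h : TabOK n pts OT XT) {a b c d : Fin n}
    (h1 : X (cfg pts n) a b c d) : (nthN (nthL XT a) b).testBit (n * c + d) = true ∨
      (nthN (nthL XT a) b).testBit (n * d + c) = true := by
  obtain ⟨h2, h3⟩ := h1
  have e1 : o (cfg pts n) c d a = o (cfg pts n) a c d := by unfold o; ring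
  have e2 : o (cfg pts n) c d b = o (cfg pts n) b c d := by unfold o; ring
  have e3 : o (cfg pts n) a d c = - o (cfg pts n) a c d := by unfold o; ring
  have e4 : o (cfg pts n) b d c = - o (cfg pts n) b c d := by unfold o; ring
  rw [e1, e2] at h3
  rw [xt_bit hl h, xt_bit hl h, e3, e4]
  rcases mul_neg_iff.1 h2 with ⟨h4, h5⟩ | ⟨h4, h5⟩
  · left
    refine ⟨h4, h5, ?_⟩
    rcases mul_neg_iff.1 h3 with ⟨h6, h7⟩ | ⟨h6, h7⟩
    · exact ⟨fun _ => not_lt.2 h7.le, fun _ => h6⟩
    · exact ⟨fun h8 => absurd h8 (not_lt.2 h6.le), fun h8 => absurd h7 h8⟩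
  · right
    refine ⟨h5, h4, ?_⟩
    rcases mul_neg_iff.1 h3 with ⟨h6, h7⟩ | ⟨h6, h7⟩
    · exact ⟨fun h8 => absurd (neg_pos.1 h8) (not_lt.2 h6.le),
        fun h8 => absurd (neg_pos.2 h7) h8⟩
    · exact ⟨fun _ => not_lt.2 (neg_nonpos.2 h7.le), fun _ => neg_pos.2 h6⟩

end

end FPW
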