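import Pool.Agent.Lib.MP_deef39_co_Dis.DisD

/-! # Dis module E: the check of the states and the disconnection theorem -/

set_option autoImplicit false

namespace FPW

/-- last entry -/
def lastN : List ℕ → ℕ
  | [] => 0
  | a :: s => match s with
    | [] => a
    | _ :: _ => lastN s

theorem lastN_app {A : List ℕ} {z : ℕ} : lastN (A ++ [z]) = z := by
  induction A with
  | nil => rfl
  | cons a A ih =>
    cases A with
    | nil => rfl
    | cons b A => exact ih

/-- mask of a list -/
def vmk : List ℕ → ℕ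
  | [] => 0
  | a :: s => Nat.lor (Nat.pow 2 a) (vmk s)

theorem vmk_bit {s : List ℕ} {v : ℕ} : (vmk s).testBit v = true ↔ v ∈ s := by
  induction s with
  | nil => simp [vmk]
  | cons a s ih =>
    have h1 : vmk (a :: s) = 2 ^ a ||| vmk s := rfl
    rw [h1, Nat.testBit_or, Bool.or_eq_true, ih, Nat.testBit_two_pow, decide_eq_true_eq,
      List.mem_cons]
    exact or_congr_left eq_comm

/-- along the row of the end: every target is blocked, or it belongs to the mask `Sm` and the
rotated state is in the tree -/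
def chkRow (T : TS) (Sm E : ℕ) (s : List ℕ) : ℕ → List ℕ → Bool
  | _, [] => true
  | v, x :: R => cond (Nat.beq (Nat.land x E) 0)
      (cond (Nat.beq (Nat.mod (Nat.shiftRight Sm v) 2) 1)
        (cond (TS.mem T (enc (rotAt v s))) (chkRow T Sm E s (Nat.succ v) R) false) false)
      (chkRow T Sm E s (Nat.succ v) R)

theorem chkRow_spec {T : TS} {Sm E : ℕ} {s : List ℕ} {v : ℕ} {R : List ℕ}
    (h : chkRow T Sm E s v R = true) : ∀ i (hi : i < R.length), Nat.land R[i] E ≠ 0 ∨
      (Sm.testBit (v + i) = true ∧ T.In (enc (rotAt (v + i) s))) := by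
  induction R generalizing v with
  | nil => intro i hi; simp at hi
  | cons x R ih =>
    rw [chkRow] at h
    intro i hi
    have hkey : (chkRow T Sm E s (Nat.succ v) R = true) := by
      cases h1 : Nat.beq (Nat.land x E) 0 with
      | true =>
        rw [h1, cond_true, cond_false_iff, cond_false_iff] at h
        exact h.2.2
      | false =>
        rw [h1, cond_false] at h
        exact h
    cases i with
    | zero =>
      cases h1 : Nat.beq (Nat.land x E) 0 with
      | true =>
        rw [h1, cond_true, cond_false_iff, cond_false_iff, beq_nat_iff] at h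
        right
        refine ⟨?_, ?_⟩
        · rw [Nat.add_zero]
          have h2 : (Sm >>> v) % 2 = 1 := h.1
          have h3 : (Sm >>> v).testBit 0 = true := by
            rw [Nat.testBit_zero]
            simp [h2]
          rw [Nat.testBit_shiftRight, Nat.add_zero] at h3
          exact h3
        · rw [Nat.add_zero]
          exact TS.in_of_mem h.2.1
      | false =>
        left
        intro h2
        have h3 : Nat.land x E = 0 := h2
        rw [h3] at h1
        simp [Nat.beq] at h1
    | succ i =>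
      have h1 := ih hkey i (by simpa using hi)
      have h2 : Nat.succ v + i = v + (i + 1) := by omega
      rw [h2] at h1
      rw [List.getElem_cons_succ]
      exact h1

/-- check of the state with code `c` (lists of length `m`) -/
def chkS (n m : ℕ) (T : TS) (XT : List (List ℕ)) (Sm : ℕ) (c : ℕ) : Bool :=
  chkRow T Sm (em n (dec m c)) (dec m c) 0 (nthL XT (lastN (dec m c)))

/-- the lists of the class of the tree -/
def Cls {n : ℕ} (T : TS) (a₀ : List (Fin n)) (l : List (Fin n)) : Prop :=
  l.Perm a₀ ∧ l.head? = a₀.head? ∧ T.In (enc (l.map Fin.val))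

theorem land_ne {x y : ℕ} (h : Nat.land x y ≠ 0) :
    ∃ i, x.testBit i = true ∧ y.testBit i = true := by
  by_contra hno
  push Not at hno
  apply h
  refine Nat.eq_of_testBit_eq fun i => ?_
  have h1 : (x &&& y).testBit i = (x.testBit i && y.testBit i) := Nat.testBit_and _ _ _
  have h2 : (Nat.land x y).testBit i = (x.testBit i && y.testBit i) := h1
  rw [h2, Nat.zero_testBit]
  cases h3 : x.testBit i with
  | false => rfl
  | true =>
    cases h4 : y.testBit i with
    | false => rfl
    | true => exact absurd h4 (hno i h3)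

theorem ed_map {n : ℕ} {l : List (Fin n)} {a b : ℕ}
    (h : Ed (l.map Fin.val) a b) : ∃ c d : Fin n, a = c ∧ b = d ∧ Ed l c d := by
  induction l with
  | nil => exact h.elim
  | cons x l ih =>
    cases l with
    | nil => exact h.elim
    | cons y l =>
      rcases h with ⟨h1, h2⟩ | ⟨h1, h2⟩ | h
      · exact ⟨x, y, h1, h2, Or.inl ⟨rfl, rfl⟩⟩
      · exact ⟨y, x, h1, h2, Or.inr (Or.inl ⟨rfl, rfl⟩)⟩
      · obtain ⟨c, d, h3, h4, h5⟩ := ih h
        exact ⟨c, d, h3, h4, Or.inr (Or.inr h5)⟩

theorem ed_map' {n : ℕ} {l : List (Fin n)} {c d : Fin n} (h : Ed l c d) :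
    Ed (l.map Fin.val) c d := by
  induction l with
  | nil => exact h.elim
  | cons x l ih =>
    cases l with
    | nil => exact h.elim
    | cons y l =>
      rcases h with ⟨h1, h2⟩ | ⟨h1, h2⟩ | h
      · exact Or.inl ⟨by rw [h1], by rw [h2]⟩
      · exact Or.inr (Or.inl ⟨by rw [h1], by rw [h2]⟩)
      · exact Or.inr (Or.inr (ih h))

section

variable {n : ℕ} {pts : List (ℕ × ℕ)} {OT XT : List (List ℕ)}

/-- a nonzero `land` of a table entry and an edge mask gives a crossing -/
theorem cross_of_land (hl : pts.length = n) (hn : 3 ≤ n) (h : TabOK n pts OT XT)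
    {z v : Fin n} {l : List (Fin n)}
    (h1 : Nat.land (nthN (nthL XT z) v) (em n (l.map Fin.val)) ≠ 0) :
    ∃ a b, Ed l a b ∧ X (cfg pts n) z v a b := by
  obtain ⟨i, h2, h3⟩ := land_ne h1
  obtain ⟨a, b, h4, h5⟩ := em_bit.1 h3
  obtain ⟨c, d, rfl, rfl, h6⟩ := ed_map h5
  rw [h4] at h2
  exact ⟨c, d, h6, X_of_bit hl hn h h2⟩

theorem closed1_of_check (hl : pts.length = n) (hn : 3 ≤ n) (hn64 : n ≤ 256)
    (h : TabOK n pts OT XT) {T : TS} {a₀ : List (Fin n)} {r : Fin n} {m Sm : ℕ}
    (hm : a₀.length = m) (hSm : Sm = vmk (a₀.map Fin.val))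
    (hnd : a₀.Nodup) (hr : a₀.head? = some r)
    (hT : T.all (chkS n m T XT Sm) = true) :
    Closed1 (cfg pts n) (Cls T a₀) (fun v => v ∈ a₀) r := by
  have hmain : ∀ (l : List (Fin n)) (z : Fin n) (A : List (Fin n)), Cls T a₀ l →
      l = A ++ [z] → ∀ v : Fin n,
      Nat.land (nthN (nthL XT z) v) (em n (l.map Fin.val)) ≠ 0 ∨
      (v ∈ a₀ ∧ T.In (enc (rotAt v (l.map Fin.val)))) := by
    intro l z A hl' hz v
    have h1 := TS.of_all hT hl'.2.2
    have hdec : dec m (enc (l.map Fin.val)) = l.map Fin.val := by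
      have h2 : (l.map Fin.val).length = m := by
        rw [List.length_map, hl'.1.length_eq, hm]
      rw [← h2]
      apply dec_enc
      intro a ha
      obtain ⟨i, _, rfl⟩ := List.mem_map.1 ha
      exact lt_of_lt_of_le i.2 hn64
    unfold chkS at h1
    rw [hdec] at h1
    have hlast : lastN (l.map Fin.val) = z := by
      rw [hz, List.map_append]
      exact lastN_app
    rw [hlast] at h1
    have hlen := h.lenX z z.2
    have hv : (v : ℕ) < (nthL XT z).length := by rw [hlen]; exact v.2
    have h2 := chkRow_spec h1 v hv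
    rw [← nthN_eq hv, Nat.zero_add] at h2
    rcases h2 with h3 | ⟨h3, h4⟩
    · exact Or.inl h3
    · right
      refine ⟨?_, h4⟩
      rw [hSm, vmk_bit, List.mem_map] at h3
      obtain ⟨i, h5, h6⟩ := h3
      rw [← Fin.ext h6]
      exact h5
  refine ⟨?_, ?_, ?_, ?_, ?_⟩
  · intro l hl'
    exact hl'.1.nodup_iff.2 hnd
  · intro l hl' v
    exact hl'.1.mem_iff
  · intro l hl'
    have h1 := hl'.2.1
    rw [hr] at h1
    cases l with
    | nil => simp at h1
    | cons a l =>
      rw [List.head?_cons] at h1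
      exact ⟨l, by rw [Option.some.inj h1]⟩
  · intro l v z l' hl' hrot hvis
    have hnl : l.Nodup := hl'.1.nodup_iff.2 hnd
    refine ⟨(rotL_perm hrot).trans hl'.1, (rotL_head hrot).trans hl'.2.1, ?_⟩
    obtain ⟨A, B, h1, h2⟩ := hrot
    have h3 : l = (A ++ v :: B) ++ [z] := by
      rw [h1, List.append_assoc, List.cons_append]
    rcases hmain l z _ hl' h3 v with h4 | ⟨_, h4⟩
    · exfalso
      obtain ⟨a, b, h5, h6⟩ := cross_of_land hl hn h h4
      exact hvis a b h5 h6
    · have h5 : rotAt v (l.map Fin.val) = l'.map Fin.val := by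
        rw [h1, h2, List.map_append, List.map_cons, List.map_append]
        have h6 : (v : ℕ) ∉ A.map Fin.val := by
          intro h7
          obtain ⟨i, h8, h9⟩ := List.mem_map.1 h7
          rw [h1] at hnl
          exact (List.nodup_append.1 hnl).2.2 i h8 v (by simp) (Fin.ext h9)
        rw [rotAt_eq h6]
        simp
      rw [← h5]
      exact h4
  · intro A z hl' v hv
    rcases hmain (A ++ [z]) z A hl' rfl v with h4 | ⟨h4, _⟩
    · exact cross_of_land hl hn h h4
    · exact absurd h4 hv

/-- plane check -/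
def plN (XT : List (List ℕ)) (E : ℕ) : List ℕ → Bool
  | [] => true
  | a :: s => match s with
    | [] => true
    | b :: _ => cond (Nat.beq (Nat.land (nthN (nthL XT a) b) E) 0) (plN XT E s) false

theorem plN_spec {E : ℕ} {l : List (Fin n)} (h : plN XT E (l.map Fin.val) = true)
    {A B : List (Fin n)} {a b : Fin n} (hl : l = A ++ a :: b :: B) :
    Nat.land (nthN (nthL XT a) b) E = 0 := by
  subst hl
  induction A with
  | nil =>
    have h1 : cond (Nat.beq (Nat.land (nthN (nthL XT a) b) E) 0)
      (plN XT E ((b :: B).map Fin.val)) false = true := h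
    rw [cond_false_iff, beq_nat_iff] at h1
    exact h1.1
  | cons x A ih =>
    cases A with
    | nil =>
      have h1 : cond (Nat.beq (Nat.land (nthN (nthL XT x) a) E) 0)
        (plN XT E ((a :: b :: B).map Fin.val)) false = true := h
      rw [cond_false_iff] at h1
      exact ih h1.2
    | cons y A =>
      have h1 : cond (Nat.beq (Nat.land (nthN (nthL XT x) y) E) 0)
        (plN XT E ((y :: A ++ a :: b :: B).map Fin.val)) false = true := h
      rw [cond_false_iff] at h1
      exact ih h1.2

theorem plane_of_check (hl : pts.length = n) (h : TabOK n pts OT XT) {l : List (Fin n)}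
    (h1 : plN XT (em n (l.map Fin.val)) (l.map Fin.val) = true) :
    Plane (cfg pts n) (Ed l) := by
  have hkey : ∀ a b c d : Fin n, Ed l c d → (∃ A B, l = A ++ a :: b :: B) →
      ¬ X (cfg pts n) a b c d := by
    rintro a b c d hcd ⟨A, B, hAB⟩ hX
    have h2 := plN_spec h1 hAB
    have h3 : ∀ i, ((nthN (nthL XT a) b).testBit i &&
        (em n (l.map Fin.val)).testBit i) = false := by
      intro i
      have h4 := congrArg (fun x => Nat.testBit x i) h2
      have h5 : (Nat.land (nthN (nthL XT a) b) (em n (l.map Fin.val))).testBit i =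
        ((nthN (nthL XT a) b).testBit i && (em n (l.map Fin.val)).testBit i) :=
        Nat.testBit_and _ _ _
      simp only [h5, Nat.zero_testBit] at h4
      exact h4
    rcases bit_of_X hl h hX with h4 | h4
    · have h5 := h3 (n * c + d)
      rw [h4, em_bit.2 ⟨c, d, rfl, ed_map' hcd⟩] at h5
      simp at h5
    · have h5 := h3 (n * d + c)
      rw [h4, em_bit.2 ⟨d, c, rfl, ed_map' (ed_symm hcd)⟩] at h5
      simp at h5
  intro a b c d hab hcd hX
  obtain ⟨A, B, h2 | h2⟩ := ed_split hab
  · exact hkey a b c d hcd ⟨A, B, h2⟩ hX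
  · exact hkey b a c d hcd ⟨A, B, h2⟩ (X_sw1.1 hX)

end

theorem lift_list {n : ℕ} {s : List ℕ} (h : ∀ a ∈ s, a < n) :
    ∃ l : List (Fin n), (l.map Fin.val) = s := by
  induction s with
  | nil => exact ⟨[], rfl⟩
  | cons a s ih =>
    obtain ⟨l, hl⟩ := ih fun b hb => h b (List.mem_cons_of_mem _ hb)
    exact ⟨⟨a, h a (by simp)⟩ :: l, by rw [List.map_cons, hl]⟩

/-- all the finite data -/
structure ProdCert (n N : ℕ) (pts : List (ℕ × ℕ)) (OT XT : List (List ℕ)) (TA TB : TS)
    (a b l : List ℕ) (ma mb Sa Sb : ℕ) : Prop where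
  hl : pts.length = n
  hn : 3 ≤ n
  hn64 : n ≤ 256
  hN : N = 2 ^ n
  tab : chkT n N pts OT XT = true
  hma : a.length = ma
  hmb : b.length = mb
  hSa : Sa = vmk a
  hSb : Sb = vmk b
  nd : (a.reverse ++ b).Nodup
  all : ∀ v < n, v ∈ a.reverse ++ b
  lt : ∀ v ∈ a.reverse ++ b, v < n
  ne : a ≠ [] ∧ b ≠ []
  ina : TA.mem (enc a) = true
  inb : TB.mem (enc b) = true
  cka : TA.all (chkS n ma TA XT Sa) = true
  ckb : TB.all (chkS n mb TB XT Sb) = true
  pl : plN XT (em n (a.reverse ++ b)) (a.reverse ++ b) = true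
  lnd : l.Nodup
  lall : ∀ v < n, v ∈ l
  llt : ∀ v ∈ l, v < n
  lpl : plN XT (em n l) l = true
  lno : (em n l).testBit (n * a.headD 0 + b.headD 0) = false

theorem dis_check {n N : ℕ} {pts : List (ℕ × ℕ)} {OT XT : List (List ℕ)} {TA TB : TS}
    {a b l : List ℕ} {ma mb Sa Sb : ℕ} (H : ProdCert n N pts OT XT TA TB a b l ma mb Sa Sb) :
    Function.Injective (cfg pts n) ∧
    (∀ i j k : Fin n, i ≠ j → j ≠ k → i ≠ k →
      ¬ Collinear ℝ ({cfg pts n i, cfg pts n j, cfg pts n k} : Set (ℝ × ℝ))) ∧
    ¬ ConnStmt n (cfg pts n) := by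
  have hT := tab_ok H.hN H.tab
  have hgp := tab_gp H.hl H.hn hT
  refine ⟨hgp.inj, ?_, ?_⟩
  · intro i j k hij hjk hik hc
    refine hgp.ne i j k hij hjk hik ?_
    rw [collinear_iff_of_mem (p₀ := cfg pts n i) (by simp)] at hc
    obtain ⟨v, hv⟩ := hc
    obtain ⟨s, hs⟩ := hv (cfg pts n j) (by simp)
    obtain ⟨t, ht⟩ := hv (cfg pts n k) (by simp)
    unfold o
    rw [hs, ht]
    simp only [vadd_eq_add, Prod.fst_add, Prod.snd_add, Prod.smul_fst, Prod.smul_snd,
      smul_eq_mul]
    ring
  · obtain ⟨a₀, ha⟩ := lift_list (n := n) (s := a) fun x hx => H.lt x (by simp [hx])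
    obtain ⟨b₀, hb⟩ := lift_list (n := n) (s := b) fun x hx => H.lt x (by simp [hx])
    obtain ⟨l₁, hl⟩ := lift_list (n := n) (s := l) H.llt
    have hab : (a₀.reverse ++ b₀).map Fin.val = a.reverse ++ b := by
      rw [List.map_append, List.map_reverse, ha, hb]
    have hnd : (a₀.reverse ++ b₀).Nodup := by
      have h1 := H.nd
      rw [← hab] at h1
      exact List.Nodup.of_map _ h1
    have hall : ∀ v : Fin n, v ∈ a₀.reverse ++ b₀ := by
      intro v
      have h1 := H.all v v.2
      rw [← hab, List.mem_map] at h1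
      obtain ⟨i, h2, h3⟩ := h1
      rw [← Fin.ext h3]
      exact h2
    obtain ⟨r, a', har⟩ : ∃ r a', a₀ = r :: a' := by
      cases a₀ with
      | nil => exact absurd ha.symm H.ne.1
      | cons r a' => exact ⟨r, a', rfl⟩
    obtain ⟨r', b', hbr⟩ : ∃ r b', b₀ = r :: b' := by
      cases b₀ with
      | nil => exact absurd hb.symm H.ne.2
      | cons r b' => exact ⟨r, b', rfl⟩
    have hnd2 := List.nodup_append.1 hnd
    have hC := closed1_of_check (pts := pts) (OT := OT) (XT := XT) (T := TA) (a₀ := a₀)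
      (r := r) (m := ma) (Sm := Sa) H.hl H.hn H.hn64 hT
      (by rw [← H.hma, ← ha, List.length_map]) (by rw [H.hSa, ha])
      (List.nodup_reverse.1 hnd2.1) (by rw [har]; rfl) H.cka
    have hD := closed1_of_check (pts := pts) (OT := OT) (XT := XT) (T := TB) (a₀ := b₀)
      (r := r') (m := mb) (Sm := Sb) H.hl H.hn H.hn64 hT
      (by rw [← H.hmb, ← hb, List.length_map]) (by rw [H.hSb, hb])
      hnd2.2.1 (by rw [hbr]; rfl) H.ckb
    have hS : ∀ v, v ∈ b₀ ↔ ¬ v ∈ a₀ := by
      intro v
      constructor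
      · intro h1 h2
        exact hnd2.2.2 v (List.mem_reverse.2 h2) v h1 rfl
      · intro h1
        rcases List.mem_append.1 (hall v) with h2 | h2
        · exact absurd (List.mem_reverse.1 h2) h1
        · exact h2
    refine dis_prod hgp hS hC hD (a₀ := a₀) (b₀ := b₀) (l₁ := l₁)
      ⟨List.Perm.refl _, rfl, ?_⟩ ⟨List.Perm.refl _, rfl, ?_⟩ ?_ ?_ ?_ ?_ ?_
    · rw [ha]
      exact TS.in_of_mem H.ina
    · rw [hb]
      exact TS.in_of_mem H.inb
    · apply plane_of_check H.hl hT
      rw [hab]
      exact H.pl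
    · have h1 := H.lnd
      rw [← hl] at h1
      exact List.Nodup.of_map _ h1
    · intro v
      have h1 := H.lall v v.2
      rw [← hl, List.mem_map] at h1
      obtain ⟨i, h2, h3⟩ := h1
      rw [← Fin.ext h3]
      exact h2
    · apply plane_of_check H.hl hT
      rw [hl]
      exact H.lpl
    · intro h1
      have h2 : (em n l).testBit (n * r + r') = true := by
        rw [em_bit]
        refine ⟨r, r', rfl, ?_⟩
        rw [← hl]
        exact ed_map' h1
      have h3 := H.lno
      rw [← ha, ← hb, har, hbr] at h3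
      have h4 : (em n l).testBit (n * r + r') = false := h3
      rw [h2] at h4
      simp at h4

/-- the negation from a certificate -/
theorem dis_final {n N : ℕ} {pts : List (ℕ × ℕ)} {OT XT : List (List ℕ)} {TA TB : TS}
    {a b l : List ℕ} {ma mb Sa Sb : ℕ} (H : ProdCert n N pts OT XT TA TB a b l ma mb Sa Sb) :
    ¬ (∀ (n : ℕ) (p : Fin n → ℝ × ℝ), Function.Injective p →
      (∀ i j k : Fin n, i ≠ j → j ≠ k → i ≠ k →
        ¬ Collinear ℝ ({p i, p j, p k} : Set (ℝ × ℝ))) →
      ∀ P : SimpleGraph (Fin n) → Prop,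
        (∀ A : SimpleGraph (Fin n), P A ↔
          (A.IsTree ∧ (∀ v : Fin n, (A.neighborSet v).ncard ≤ 2) ∧
            ∀ a b c d : Fin n, A.Adj a b → A.Adj c d → s(a, b) ≠ s(c, d) →
              ∀ x : ℝ × ℝ, x ∈ segment ℝ (p a) (p b) → x ∈ segment ℝ (p c) (p d) →
                (x = p a ∨ x = p b) ∧ (x = p c ∨ x = p d))) →
        ∀ G H : SimpleGraph (Fin n), P G → P H →
          Relation.ReflTransGen
            (fun A B : SimpleGraph (Fin n) =>
              P A ∧ P B ∧ (A.edgeSet \ B.edgeSet).ncard = 1 ∧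
                (B.edgeSet \ A.edgeSet).ncard = 1)
            G H) :=
  dis_frozen (dis_check H).1 (dis_check H).2.1 (dis_check H).2.2

end FPW
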