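import Pool.Agent.Lib.MP_deef39_co_Dis.DisE

/-! # Dis module G: the flip graphs with a fixed first edge and with a fixed first vertex -/

set_option autoImplicit false

namespace FPW

/-- plane spanning paths, worded as in the problem -/
def PlanePath {n : ℕ} (p : Fin n → ℝ × ℝ) (A : SimpleGraph (Fin n)) : Prop :=
  A.IsTree ∧ (∀ v : Fin n, (A.neighborSet v).ncard ≤ 2) ∧
    ∀ a b c d : Fin n, A.Adj a b → A.Adj c d → s(a, b) ≠ s(c, d) →
      ∀ x : ℝ × ℝ, x ∈ segment ℝ (p a) (p b) → x ∈ segment ℝ (p c) (p d) →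
        (x = p a ∨ x = p b) ∧ (x = p c ∨ x = p d)

/-- a set of lists with prefix `u v`, closed under the flips which keep this prefix -/
structure ClosedE {n : ℕ} (p : Fin n → ℝ × ℝ) (C : List (Fin n) → Prop) (u v : Fin n) :
    Prop where
  nodup : ∀ l, C l → l.Nodup
  all : ∀ l, C l → ∀ w, w ∈ l
  head : ∀ l, C l → ∃ m, l = u :: v :: m
  rot : ∀ l w z l', C l → RotL w z l l' → w ≠ u → Vis p (Ed l) z w → C l'

/-- a set of lists with first entry `u`, closed under the flips which keep `u` as an end -/
structure ClosedV {n : ℕ} (p : Fin n → ℝ × ℝ) (C : List (Fin n) → Prop) (u : Fin n) :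
    Prop where
  nodup : ∀ l, C l → l.Nodup
  all : ∀ l, C l → ∀ w, w ∈ l
  head : ∀ l, C l → ∃ m, l = u :: m
  rot : ∀ l w z l', C l → RotL w z l l' → Vis p (Ed l) z w → C l'

/-- a list is determined by its first entry and its edges -/
theorem list_eq_of_ed {n : ℕ} {l l' : List (Fin n)} (hn : l.Nodup) (hn' : l'.Nodup)
    (hh : l.head? = l'.head?) (he : ∀ a b, Ed l a b ↔ Ed l' a b) : l = l' := by
  induction l generalizing l' with
  | nil =>
    cases l' with
    | nil => rfl
    | cons b l' => simp at hh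
  | cons a s ih =>
    cases l' with
    | nil => simp at hh
    | cons b s' =>
      have hab : a = b := by simpa using hh
      subst hab
      have has := (List.nodup_cons.1 hn).1
      have has' := (List.nodup_cons.1 hn').1
      cases s with
      | nil =>
        cases s' with
        | nil => rfl
        | cons c s' => exact ((he a c).2 (Or.inl ⟨rfl, rfl⟩)).elim
      | cons c s =>
        cases s' with
        | nil => exact ((he a c).1 (Or.inl ⟨rfl, rfl⟩)).elim
        | cons c' s' =>
          have hc : c = c' := by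
            rcases (he a c).1 (Or.inl ⟨rfl, rfl⟩) with ⟨_, h⟩ | ⟨h, _⟩ | h
            · exact h
            · exact absurd (h ▸ (by simp) : a ∈ c' :: s') has'
            · exact absurd (ed_mem h) has'
          subst hc
          rw [ih (l' := c :: s') (List.nodup_cons.1 hn).2 (List.nodup_cons.1 hn').2 rfl ?_]
          intro x y
          constructor
          · intro h
            rcases (he x y).1 (Or.inr (Or.inr h)) with ⟨h1, _⟩ | ⟨_, h1⟩ | h1
            · exact absurd (h1 ▸ ed_mem h) has
            · exact absurd (h1 ▸ ed_mem' h) has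
            · exact h1
          · intro h
            rcases (he x y).2 (Or.inr (Or.inr h)) with ⟨h1, _⟩ | ⟨_, h1⟩ | h1
            · exact absurd (h1 ▸ ed_mem h) has'
            · exact absurd (h1 ▸ ed_mem' h) has'
            · exact h1

private theorem disg_X {n : ℕ} {p : Fin n → ℝ × ℝ} (hgp : GP p) {A : SimpleGraph (Fin n)}
    (hA : PlanePath p A) : ∀ a b c d, A.Adj a b → A.Adj c d → ¬ X p a b c d := by
  intro a b c d hab hcd hX
  have hne := X_ne hX
  by_cases hs : s(a, b) = s(c, d)
  · rcases Sym2.eq_iff.1 hs with ⟨h4, _⟩ | ⟨h4, _⟩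
    · exact hne.2.2.1 h4
    · exact hne.2.2.2.1 h4
  · exact (seg_iff hgp hne.1 hne.2.1 hs).1 (hA.2.2 a b c d hab hcd hs) hX

private theorem disg_back {n : ℕ} {p : Fin n → ℝ × ℝ} (hgp : GP p) (hn0 : 0 < n)
    {l : List (Fin n)} (h1 : l.Nodup) (h2 : ∀ v, v ∈ l) (h3 : Plane p (Ed l)) :
    PlanePath p (gr l) := by
  refine ⟨gr_tree h1 (List.ne_nil_of_mem (h2 ⟨0, hn0⟩)) h2, gr_deg h1, ?_⟩
  intro a b c d hab hcd hs
  have h4 := (gr_adj h1).1 hab
  have h5 := (gr_adj h1).1 hcd
  exact (seg_iff hgp (ed_ne h1 h4) (ed_ne h1 h5) hs).2 (h3 a b c d h4 h5)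

/-- neighbours of the first vertex -/
theorem gr_first {n : ℕ} {u v : Fin n} {m : List (Fin n)} (h : (u :: v :: m).Nodup) :
    (gr (u :: v :: m)).neighborSet u = {v} := by
  ext w
  rw [SimpleGraph.mem_neighborSet, gr_adj h, Set.mem_singleton_iff]
  have hu := (List.nodup_cons.1 h).1
  constructor
  · rintro (⟨_, h1⟩ | ⟨h1, _⟩ | h1)
    · exact h1
    · exact absurd (h1 ▸ (by simp) : u ∈ v :: m) hu
    · exact absurd (ed_mem h1) hu
  · rintro rfl
    exact Or.inl ⟨rfl, rfl⟩

private theorem disg_vis {n : ℕ} {p : Fin n → ℝ × ℝ} (hgp : GP p) {B : SimpleGraph (Fin n)}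
    (hB : PlanePath p B) {l : List (Fin n)} {v z : Fin n} (hzv : B.Adj z v)
    (hed : ∀ a b, Ed l a b → B.Adj a b ∨ a = v ∨ b = v) : Vis p (Ed l) z v := by
  intro c d hcd hX'
  rcases hed c d hcd with h5 | h5 | h5
  · exact disg_X hgp hB z v c d hzv h5 hX'
  · exact (X_ne hX').2.2.2.2.1 h5.symm
  · exact (X_ne hX').2.2.2.2.2 h5.symm

private theorem disg_last {n : ℕ} {l A : List (Fin n)} {z : Fin n} (h : l = A ++ [z]) :
    l.getLast? = some z := by
  rw [h]
  simp

/-- everything that can be reached with the first edge fixed -/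
theorem fe_core {n : ℕ} {p : Fin n → ℝ × ℝ} (hgp : GP p) (hn3 : 3 ≤ n)
    {C : List (Fin n) → Prop} {u v : Fin n} (hC : ClosedE p C u v) {l₀ : List (Fin n)}
    (h0 : C l₀) {B : SimpleGraph (Fin n)}
    (hB : Relation.ReflTransGen (fun A B : SimpleGraph (Fin n) =>
      (PlanePath p A ∧ A.neighborSet u = {v}) ∧ (PlanePath p B ∧ B.neighborSet u = {v}) ∧
        (A.edgeSet \ B.edgeSet).ncard = 1 ∧ (B.edgeSet \ A.edgeSet).ncard = 1) (gr l₀) B) :
    ∃ l, C l ∧ B = gr l := by
  induction hB with
  | refl => exact ⟨_, h0, rfl⟩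
  | @tail A B _ h2 ih =>
    obtain ⟨l, hl, rfl⟩ := ih
    obtain ⟨_, ⟨hPB, hBu⟩, h3, h4⟩ := h2
    have hn := hC.nodup l hl
    have hal := hC.all l hl
    obtain ⟨m, hm⟩ := hC.head l hl
    have huadj : ∀ w, B.Adj u w ↔ w = v := by
      intro w
      rw [← SimpleGraph.mem_neighborSet, hBu, Set.mem_singleton_iff]
    have hmne : m ≠ [] := by
      rintro rfl
      have h5 : ∀ w : Fin n, w = u ∨ w = v := by
        intro w
        have h6 := hal w
        rw [hm] at h6
        simpa using h6
      have h6 : Fintype.card (Fin n) ≤ 2 := by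
        have h7 : (Finset.univ : Finset (Fin n)) ⊆ {u, v} := by
          intro w _
          rcases h5 w with rfl | rfl <;> simp
        calc Fintype.card (Fin n) = (Finset.univ : Finset (Fin n)).card := rfl
          _ ≤ ({u, v} : Finset (Fin n)).card := Finset.card_le_card h7
          _ ≤ 2 := Finset.card_le_two
      rw [Fintype.card_fin] at h6
      omega
    obtain ⟨m', z', hm'⟩ : ∃ m' z', m = m' ++ [z'] := by
      rcases List.eq_nil_or_concat m with h5 | ⟨m', z', h5⟩
      · exact absurd h5 hmne
      · exact ⟨m', z', by rw [h5, List.concat_eq_append]⟩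
    have hz'v : z' ≠ v := by
      rintro rfl
      rw [hm, hm'] at hn
      simp at hn
    rcases gr_flip hn hal hPB.1 hPB.2.1 h3 h4 with
      ⟨w, z, l', h5, h6, h7, h8⟩ | ⟨w, z, l', h5, h6, h7, h8⟩ | ⟨h, z, m₂, h5, h6, x, y, h7⟩
    · refine ⟨l', ?_, h6⟩
      refine hC.rot l w z l' hl h5 ?_ (disg_vis hgp hPB h7 h8)
      rintro rfl
      have h9 : z = v := (huadj z).1 h7.symm
      obtain ⟨A, B', h10, _⟩ := h5
      have h12 := disg_last (l := l) (A := A ++ w :: B') (z := z) (by rw [h10]; simp)
      have h13 := disg_last (l := l) (A := w :: v :: m') (z := z') (by rw [hm, hm']; simp)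
      rw [h12] at h13
      exact hz'v ((Option.some.inj h13).symm.trans h9)
    · -- rotation at the first vertex
      obtain ⟨A, B', h10, h11⟩ := h5
      have h12 : l = z :: (B'.reverse ++ w :: A.reverse) := by
        rw [← List.reverse_reverse l, h10]
        simp
      have hzu : z = u := by
        rw [hm] at h12
        exact (List.cons.inj h12).1.symm
      subst hzu
      have hwv : w = v := (huadj w).1 h7
      subst hwv
      have hB' : B' = [] := by
        rcases List.eq_nil_or_concat B' with h13 | ⟨B'', b, h13⟩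
        · exact h13
        · exfalso
          rw [h13] at h12
          rw [h12] at hn
          rw [hm] at h12
          have h14 := (List.cons.inj h12).2
          rw [List.concat_eq_append, List.reverse_append] at h14
          have h15 : w = b := (List.cons.inj h14).1
          rw [h15, List.concat_eq_append] at hn
          simp at hn
      subst hB'
      refine ⟨l, hl, ?_⟩
      rw [h6]
      have h13 : l' = l.reverse := by
        rw [h11, h10]
        simp
      rw [h13]
      have hnr : l.reverse.Nodup := List.nodup_reverse.2 hn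
      ext a b
      rw [gr_adj hnr, gr_adj hn, ed_reverse]
    · exfalso
      have h8 : h = u := by
        rw [hm] at h5
        exact (List.cons.inj h5).1.symm
      subst h8
      have h9 : z = v := (huadj z).1 h6
      have h12 := disg_last (l := l) (A := h :: m₂) (z := z) (by rw [h5]; simp)
      have h13 := disg_last (l := l) (A := h :: v :: m') (z := z') (by rw [hm, hm']; simp)
      rw [h12] at h13
      exact hz'v ((Option.some.inj h13).symm.trans h9)

/-- everything that can be reached with the first vertex fixed -/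
theorem fv_core {n : ℕ} {p : Fin n → ℝ × ℝ} (hgp : GP p) (hn3 : 3 ≤ n)
    {C : List (Fin n) → Prop} {u : Fin n} (hC : ClosedV p C u) {l₀ : List (Fin n)}
    (h0 : C l₀) {B : SimpleGraph (Fin n)}
    (hB : Relation.ReflTransGen (fun A B : SimpleGraph (Fin n) =>
      (PlanePath p A ∧ (A.neighborSet u).ncard = 1) ∧
        (PlanePath p B ∧ (B.neighborSet u).ncard = 1) ∧
        (A.edgeSet \ B.edgeSet).ncard = 1 ∧ (B.edgeSet \ A.edgeSet).ncard = 1) (gr l₀) B) :
    ∃ l, C l ∧ B = gr l := by
  induction hB with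
  | refl => exact ⟨_, h0, rfl⟩
  | @tail A B _ h2 ih =>
    obtain ⟨l, hl, rfl⟩ := ih
    obtain ⟨_, ⟨hPB, hBu⟩, h3, h4⟩ := h2
    have hn := hC.nodup l hl
    have hal := hC.all l hl
    obtain ⟨m₀, hm₀⟩ := hC.head l hl
    have hone : ∀ a b, B.Adj u a → B.Adj u b → a = b := by
      intro a b ha hb
      rw [Set.ncard_eq_one] at hBu
      obtain ⟨c, hc⟩ := hBu
      have h5 : a ∈ B.neighborSet u := ha
      have h6 : b ∈ B.neighborSet u := hb
      rw [hc, Set.mem_singleton_iff] at h5 h6
      rw [h5, h6]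
    have hlen : l.length = n := by
      have h5 : l.toFinset = Finset.univ := by
        ext w
        simp [hal w]
      rw [← List.toFinset_card_of_nodup hn, h5, Finset.card_univ, Fintype.card_fin]
    obtain ⟨v, m, hm⟩ : ∃ v m, l = u :: v :: m := by
      cases m₀ with
      | nil =>
        rw [hm₀] at hlen
        simp at hlen
        omega
      | cons v m => exact ⟨v, m, hm₀⟩
    have hmne : m ≠ [] := by
      rintro rfl
      rw [hm] at hlen
      simp at hlen
      omega
    obtain ⟨m', z', hm'⟩ : ∃ m' z', m = m' ++ [z'] := by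
      rcases List.eq_nil_or_concat m with h5 | ⟨m', z', h5⟩
      · exact absurd h5 hmne
      · exact ⟨m', z', by rw [h5, List.concat_eq_append]⟩
    have hz'v : z' ≠ v := by
      rintro rfl
      rw [hm, hm'] at hn
      simp at hn
    have hu : u ∉ v :: m := by
      rw [hm] at hn
      exact (List.nodup_cons.1 hn).1
    rcases gr_flip hn hal hPB.1 hPB.2.1 h3 h4 with
      ⟨w, z, l', h5, h6, h7, h8⟩ | ⟨w, z, l', h5, h6, h7, h8⟩ | ⟨h, z, m₂, h5, h6, x, y, h7⟩
    · exact ⟨l', hC.rot l w z l' hl h5 (disg_vis hgp hPB h7 h8), h6⟩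
    · -- rotation at the first vertex
      obtain ⟨A, B', h10, h11⟩ := h5
      have h12 : l = z :: (B'.reverse ++ w :: A.reverse) := by
        rw [← List.reverse_reverse l, h10]
        simp
      have hzu : z = u := by
        rw [hm] at h12
        exact (List.cons.inj h12).1.symm
      subst hzu
      have hB' : B' = [] := by
        rcases List.eq_nil_or_concat B' with h13 | ⟨B'', b, h13⟩
        · exact h13
        · exfalso
          have hbw : b ≠ w := by
            rintro rfl
            rw [h13] at h12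
            rw [h12, List.concat_eq_append] at hn
            simp at hn
          have hnl' : l'.Nodup := by
            have h14 : RotL w z l.reverse l' := ⟨A, B', h10, h11⟩
            rw [(rotL_perm h14).nodup_iff, List.nodup_reverse]
            exact hn
          have h14 : B.Adj z b := by
            rw [h6, gr_adj hnl', h11, h13, List.concat_eq_append, List.reverse_append,
              ed_mid, ed_cons2]
            right
            right
            right
            exact Or.inl ⟨rfl, rfl⟩
          exact hbw (hone _ _ h14 h7)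
      subst hB'
      refine ⟨l, hl, ?_⟩
      rw [h6]
      have h13 : l' = l.reverse := by
        rw [h11, h10]
        simp
      rw [h13]
      have hnr : l.reverse.Nodup := List.nodup_reverse.2 hn
      ext a b
      rw [gr_adj hnr, gr_adj hn, ed_reverse]
    · -- the closing edge: rotation at the last vertex with pivot `u`
      have h8 : h = u := by
        rw [hm] at h5
        exact (List.cons.inj h5).1.symm
      subst h8
      have h9 : z = z' := by
        have h12 := disg_last (l := l) (A := h :: m₂) (z := z) (by rw [h5]; simp)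
        have h13 := disg_last (l := l) (A := h :: v :: m') (z := z') (by rw [hm, hm']; simp)
        rw [h12] at h13
        exact Option.some.inj h13
      subst h9
      have hnv : ¬ B.Adj h v := fun h9 => hz'v (hone _ _ h6 h9)
      have hEv : Ed l h v := by
        rw [hm]
        exact Or.inl ⟨rfl, rfl⟩
      have hxy : s(h, v) = s(x, y) := by
        by_contra hne
        exact hnv (h7 h v hEv hne)
      have h10 : m₂ ++ [z] = v :: m := by
        rw [hm] at h5
        exact (List.cons.inj h5).2.symm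
      have hEl : ∀ a b, Ed l a b ↔ (a = h ∧ b = v) ∨ (a = v ∧ b = h) ∨ Ed (v :: m) a b := by
        intro a b
        rw [hm, ed_cons2]
      have hEz : ¬ Ed l h z := by
        rw [hEl]
        rintro (⟨_, h11⟩ | ⟨h11, _⟩ | h11)
        · exact hz'v h11
        · exact hu (by rw [h11]; simp)
        · exact hu (ed_mem h11)
      rw [Set.ncard_eq_one] at h4
      obtain ⟨f, hf⟩ := h4
      have hfz : s(h, z) = f := by
        have h11 : s(h, z) ∈ B.edgeSet \ (gr l).edgeSet := ⟨h6, fun h12 => hEz h12.2⟩
        rw [hf] at h11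
        exact h11
      have hnew : ∀ a b, B.Adj a b → Ed l a b ∨ s(a, b) = s(h, z) := by
        intro a b hab
        by_cases hc : Ed l a b
        · exact Or.inl hc
        · right
          have h11 : s(a, b) ∈ B.edgeSet \ (gr l).edgeSet := ⟨hab, fun h12 => hc h12.2⟩
          rw [hf] at h11
          rw [hfz]
          exact h11
      have hrot : RotL h z l (h :: z :: m₂.reverse) := ⟨[], m₂, h5, rfl⟩
      have hnl' : (h :: z :: m₂.reverse).Nodup := by
        rw [(rotL_perm hrot).nodup_iff]
        exact hn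
      have hE' : ∀ a b, Ed (h :: z :: m₂.reverse) a b ↔
          (a = h ∧ b = z) ∨ (a = z ∧ b = h) ∨ Ed (v :: m) a b := by
        intro a b
        have h11 : z :: m₂.reverse = (v :: m).reverse := by
          rw [← h10]
          simp
        rw [ed_cons2, h11, ed_reverse]
      have hmem : ∀ a b, Ed (v :: m) a b → s(a, b) ≠ s(h, v) := by
        intro a b hab h11
        rcases Sym2.eq_iff.1 h11 with ⟨h12, _⟩ | ⟨_, h12⟩
        · exact hu (h12 ▸ ed_mem hab)
        · exact hu (h12 ▸ ed_mem' hab)
      refine ⟨_, hC.rot l h z _ hl hrot (disg_vis hgp hPB h6.symm ?_), ?_⟩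
      · intro a b hab
        rcases (hEl a b).1 hab with ⟨h11, _⟩ | ⟨_, h11⟩ | h11
        · exact Or.inr (Or.inl h11)
        · exact Or.inr (Or.inr h11)
        · exact Or.inl (h7 a b hab (hxy ▸ hmem a b h11))
      · ext a b
        rw [gr_adj hnl', hE']
        constructor
        · intro hab
          rcases hnew a b hab with h11 | h11
          · rcases (hEl a b).1 h11 with ⟨h12, h13⟩ | ⟨h12, h13⟩ | h12
            · exact (hnv (h12 ▸ h13 ▸ hab)).elim
            · exact (hnv (h12 ▸ h13 ▸ hab : B.Adj v h).symm).elim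
            · exact Or.inr (Or.inr h12)
          · rcases Sym2.eq_iff.1 h11 with h12 | h12
            · exact Or.inl h12
            · exact Or.inr (Or.inl h12)
        · rintro (⟨rfl, rfl⟩ | ⟨rfl, rfl⟩ | h11)
          · exact h6
          · exact h6.symm
          · exact h7 a b ((hEl a b).2 (Or.inr (Or.inr h11))) (hxy ▸ hmem a b h11)

/-- the flip graph of the plane spanning paths starting with the edge `u v` is not connected -/
theorem fe_dis {n : ℕ} {p : Fin n → ℝ × ℝ} (hgp : GP p) (hn3 : 3 ≤ n)
    {C : List (Fin n) → Prop} {u v : Fin n} (hC : ClosedE p C u v) {l₀ l₁ : List (Fin n)}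
    (h0 : C l₀) (hp0 : Plane p (Ed l₀)) (hn1 : l₁.Nodup) (ha1 : ∀ v, v ∈ l₁)
    (hp1 : Plane p (Ed l₁)) (hh : ∃ m, l₁ = u :: v :: m) (hno : ¬ C l₁) :
    ∃ G H : SimpleGraph (Fin n), (PlanePath p G ∧ G.neighborSet u = {v}) ∧
      (PlanePath p H ∧ H.neighborSet u = {v}) ∧
      ¬ Relation.ReflTransGen (fun A B : SimpleGraph (Fin n) =>
        (PlanePath p A ∧ A.neighborSet u = {v}) ∧ (PlanePath p B ∧ B.neighborSet u = {v}) ∧
          (A.edgeSet \ B.edgeSet).ncard = 1 ∧ (B.edgeSet \ A.edgeSet).ncard = 1) G H := by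
  have hn0 := hC.nodup _ h0
  obtain ⟨m₀, hm₀⟩ := hC.head _ h0
  obtain ⟨m₁, hm₁⟩ := hh
  refine ⟨gr l₀, gr l₁, ⟨disg_back hgp (by omega) hn0 (hC.all _ h0) hp0, ?_⟩,
    ⟨disg_back hgp (by omega) hn1 ha1 hp1, ?_⟩, ?_⟩
  · rw [hm₀] at hn0 ⊢
    exact gr_first hn0
  · rw [hm₁] at hn1 ⊢
    exact gr_first hn1
  · intro hR
    obtain ⟨l, hl, hgl⟩ := fe_core hgp hn3 hC h0 hR
    have hnl := hC.nodup l hl
    obtain ⟨m, hm⟩ := hC.head l hl
    have h1 : l = l₁ := by
      refine list_eq_of_ed hnl hn1 (by rw [hm, hm₁]; rfl) ?_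
      intro a b
      rw [← gr_adj hnl, ← gr_adj hn1, hgl]
    exact hno (h1 ▸ hl)

/-- the flip graph of the plane spanning paths starting at `u` is not connected -/
theorem fv_dis {n : ℕ} {p : Fin n → ℝ × ℝ} (hgp : GP p) (hn3 : 3 ≤ n)
    {C : List (Fin n) → Prop} {u : Fin n} (hC : ClosedV p C u) {l₀ l₁ : List (Fin n)}
    (h0 : C l₀) (hp0 : Plane p (Ed l₀)) (hn1 : l₁.Nodup) (ha1 : ∀ v, v ∈ l₁)
    (hp1 : Plane p (Ed l₁)) (hh : ∃ v m, l₁ = u :: v :: m) (h00 : ∃ v m, l₀ = u :: v :: m)
    (hno : ¬ C l₁) :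
    ∃ G H : SimpleGraph (Fin n), (PlanePath p G ∧ (G.neighborSet u).ncard = 1) ∧
      (PlanePath p H ∧ (H.neighborSet u).ncard = 1) ∧
      ¬ Relation.ReflTransGen (fun A B : SimpleGraph (Fin n) =>
        (PlanePath p A ∧ (A.neighborSet u).ncard = 1) ∧
          (PlanePath p B ∧ (B.neighborSet u).ncard = 1) ∧
          (A.edgeSet \ B.edgeSet).ncard = 1 ∧ (B.edgeSet \ A.edgeSet).ncard = 1) G H := by
  have hn0 := hC.nodup _ h0
  obtain ⟨v₀, m₀, hm₀⟩ := h00
  obtain ⟨v₁, m₁, hm₁⟩ := hh
  refine ⟨gr l₀, gr l₁, ⟨disg_back hgp (by omega) hn0 (hC.all _ h0) hp0, ?_⟩,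
    ⟨disg_back hgp (by omega) hn1 ha1 hp1, ?_⟩, ?_⟩
  · rw [hm₀] at hn0 ⊢
    rw [gr_first hn0, Set.ncard_singleton]
  · rw [hm₁] at hn1 ⊢
    rw [gr_first hn1, Set.ncard_singleton]
  · intro hR
    obtain ⟨l, hl, hgl⟩ := fv_core hgp hn3 hC h0 hR
    have hnl := hC.nodup l hl
    obtain ⟨m, hm⟩ := hC.head l hl
    have h1 : l = l₁ := by
      refine list_eq_of_ed hnl hn1 (by rw [hm, hm₁]; rfl) ?_
      intro a b
      rw [← gr_adj hnl, ← gr_adj hn1, hgl]
    exact hno (h1 ▸ hl)

end FPW
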