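import Pool.Agent.Lib.MP_deef39_co_Dis.DisG

/-! # Dis module H: certificates for a fixed first edge and for a fixed first vertex -/

set_option autoImplicit false

namespace FPW

/-- along the row of the end: every target is blocked, or it belongs to the mask `Km`, or the
rotated state is in the tree -/
def chkRowK (T : TS) (Km E : ℕ) (s : List ℕ) : ℕ → List ℕ → Bool
  | _, [] => true
  | v, x :: R => cond (Nat.beq (Nat.land x E) 0)
      (cond (Nat.beq (Nat.mod (Nat.shiftRight Km v) 2) 1)
        (chkRowK T Km E s (Nat.succ v) R)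
        (cond (TS.mem T (enc (rotAt v s))) (chkRowK T Km E s (Nat.succ v) R) false))
      (chkRowK T Km E s (Nat.succ v) R)

theorem chkRowK_spec {T : TS} {Km E : ℕ} {s : List ℕ} {v : ℕ} {R : List ℕ}
    (h : chkRowK T Km E s v R = true) : ∀ i (hi : i < R.length), Nat.land R[i] E ≠ 0 ∨
      Km.testBit (v + i) = true ∨ T.In (enc (rotAt (v + i) s)) := by
  induction R generalizing v with
  | nil => intro i hi; simp at hi
  | cons x R ih =>
    rw [chkRowK] at h
    intro i hi
    have hkey : (chkRowK T Km E s (Nat.succ v) R = true) := by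
      cases h1 : Nat.beq (Nat.land x E) 0 with
      | true =>
        rw [h1, cond_true] at h
        cases h2 : Nat.beq (Nat.mod (Nat.shiftRight Km v) 2) 1 with
        | true =>
          rw [h2, cond_true] at h
          exact h
        | false =>
          rw [h2, cond_false, cond_false_iff] at h
          exact h.2
      | false =>
        rw [h1, cond_false] at h
        exact h
    cases i with
    | zero =>
      rw [Nat.add_zero]
      cases h1 : Nat.beq (Nat.land x E) 0 with
      | true =>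
        rw [h1, cond_true] at h
        right
        cases h2 : Nat.beq (Nat.mod (Nat.shiftRight Km v) 2) 1 with
        | true =>
          left
          have h3 : (Km >>> v) % 2 = 1 := beq_nat_iff.1 h2
          have h4 : (Km >>> v).testBit 0 = true := by
            rw [Nat.testBit_zero]
            simp [h3]
          rw [Nat.testBit_shiftRight, Nat.add_zero] at h4
          exact h4
        | false =>
          rw [h2, cond_false, cond_false_iff] at h
          exact Or.inr (TS.in_of_mem h.1)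
      | false =>
        left
        intro h2
        have h3 : Nat.land x E = 0 := h2
        rw [h3] at h1
        simp [Nat.beq] at h1
    | succ i =>
      have h1 := ih hkey i (by simpa using hi)
      have h2 : Nat.succ v + i = v + (i + 1) := by omega
      rw [h2] at h1
      rw [List.getElem_cons_succ]
      exact h1

/-- check of the state with code `c`, pivots in the mask `Km` are not used -/
def chkK (n : ℕ) (T : TS) (XT : List (List ℕ)) (Km : ℕ) (c : ℕ) : Bool :=
  chkRowK T Km (em n (dec n c)) (dec n c) 0 (nthL XT (lastN (dec n c)))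

/-- the lists of the class with the prefix `u v` -/
def ClsE {n : ℕ} (T : TS) (u v : Fin n) (l : List (Fin n)) : Prop :=
  l.Nodup ∧ (∀ w, w ∈ l) ∧ (∃ m, l = u :: v :: m) ∧ T.In (enc (l.map Fin.val))

/-- the lists of the class with first entry `u` -/
def ClsV {n : ℕ} (T : TS) (u : Fin n) (l : List (Fin n)) : Prop :=
  l.Nodup ∧ (∀ w, w ∈ l) ∧ (∃ m, l = u :: m) ∧ T.In (enc (l.map Fin.val))

section

variable {n : ℕ} {pts : List (ℕ × ℕ)} {OT XT : List (List ℕ)}

private theorem dish_len {l : List (Fin n)} (hn : l.Nodup) (hal : ∀ w, w ∈ l) :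
    l.length = n := by
  have h5 : l.toFinset = Finset.univ := by
    ext w
    simp [hal w]
  rw [← List.toFinset_card_of_nodup hn, h5, Finset.card_univ, Fintype.card_fin]

private theorem dish_main (hl : pts.length = n) (hn : 3 ≤ n) (hn64 : n ≤ 256)
    (h : TabOK n pts OT XT) {T : TS} {Km : ℕ} (hT : T.all (chkK n T XT Km) = true)
    {l l' : List (Fin n)} {w z : Fin n} (hnd : l.Nodup) (hal : ∀ w, w ∈ l)
    (hIn : T.In (enc (l.map Fin.val))) (hrot : RotL w z l l') (hvis : Vis (cfg pts n) (Ed l) z w)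
    (hK : Km.testBit w = false) : T.In (enc (l'.map Fin.val)) := by
  have h1 := TS.of_all hT hIn
  have hdec : dec n (enc (l.map Fin.val)) = l.map Fin.val := by
    have h2 : (l.map Fin.val).length = n := by
      rw [List.length_map, dish_len hnd hal]
    have h3 := dec_enc (s := l.map Fin.val) (by
      intro a ha
      obtain ⟨i, _, rfl⟩ := List.mem_map.1 ha
      exact lt_of_lt_of_le i.2 hn64)
    rw [h2] at h3
    exact h3
  unfold chkK at h1
  rw [hdec] at h1
  obtain ⟨A, B, e1, e2⟩ := hrot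
  have hlast : lastN (l.map Fin.val) = z := by
    have e3 : l = (A ++ w :: B) ++ [z] := by
      rw [e1, List.append_assoc, List.cons_append]
    rw [e3, List.map_append]
    exact lastN_app
  rw [hlast] at h1
  have hlen := h.lenX z z.2
  have hv : (w : ℕ) < (nthL XT z).length := by rw [hlen]; exact w.2
  have h2 := chkRowK_spec h1 w hv
  rw [← nthN_eq hv, Nat.zero_add] at h2
  rcases h2 with h3 | h3 | h3
  · exfalso
    obtain ⟨a, b, h5, h6⟩ := cross_of_land hl hn h h3
    exact hvis a b h5 h6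
  · rw [hK] at h3
    simp at h3
  · have h5 : rotAt w (l.map Fin.val) = l'.map Fin.val := by
      rw [e1, e2, List.map_append, List.map_cons, List.map_append]
      have h6 : (w : ℕ) ∉ A.map Fin.val := by
        intro h7
        obtain ⟨i, h8, h9⟩ := List.mem_map.1 h7
        rw [e1] at hnd
        exact (List.nodup_append.1 hnd).2.2 i h8 w (by simp) (Fin.ext h9)
      rw [rotAt_eq h6]
      simp
    rw [← h5]
    exact h3

theorem closedE_of_check (hl : pts.length = n) (hn : 3 ≤ n) (hn64 : n ≤ 256)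
    (h : TabOK n pts OT XT) {T : TS} {u v : Fin n} {Km : ℕ} (hKm : Km = 2 ^ (u : ℕ))
    (hT : T.all (chkK n T XT Km) = true) : ClosedE (cfg pts n) (ClsE T u v) u v := by
  refine ⟨fun l hC => hC.1, fun l hC => hC.2.1, fun l hC => hC.2.2.1, ?_⟩
  intro l w z l' hC hrot hwu hvis
  refine ⟨?_, ?_, ?_, ?_⟩
  · rw [(rotL_perm hrot).nodup_iff]
    exact hC.1
  · intro x
    rw [(rotL_perm hrot).mem_iff]
    exact hC.2.1 x
  · obtain ⟨m, hm⟩ := hC.2.2.1
    obtain ⟨A, B, e1, e2⟩ := hrot
    rw [hm] at e1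
    cases A with
    | nil => exact absurd (List.cons.inj e1).1.symm hwu
    | cons a A =>
      have h1 : u = a := (List.cons.inj e1).1
      have h2 : v :: m = A ++ w :: (B ++ [z]) := (List.cons.inj e1).2
      cases A with
      | nil =>
        have h3 : v = w := (List.cons.inj h2).1
        exact ⟨z :: B.reverse, by rw [e2, h1, h3]; rfl⟩
      | cons b A =>
        have h3 : v = b := (List.cons.inj h2).1
        exact ⟨A ++ w :: z :: B.reverse, by rw [e2, h1, h3]; rfl⟩
  · refine dish_main hl hn hn64 h hT hC.1 hC.2.1 hC.2.2.2 hrot hvis ?_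
    rw [hKm, Nat.testBit_two_pow]
    exact decide_eq_false fun h1 => hwu (Fin.ext h1.symm)

theorem closedV_of_check (hl : pts.length = n) (hn : 3 ≤ n) (hn64 : n ≤ 256)
    (h : TabOK n pts OT XT) {T : TS} {u : Fin n}
    (hT : T.all (chkK n T XT 0) = true) : ClosedV (cfg pts n) (ClsV T u) u := by
  refine ⟨fun l hC => hC.1, fun l hC => hC.2.1, fun l hC => hC.2.2.1, ?_⟩
  intro l w z l' hC hrot hvis
  refine ⟨?_, ?_, ?_, ?_⟩
  · rw [(rotL_perm hrot).nodup_iff]
    exact hC.1
  · intro x
    rw [(rotL_perm hrot).mem_iff]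
    exact hC.2.1 x
  · obtain ⟨m, hm⟩ := hC.2.2.1
    have h1 := rotL_head hrot
    rw [hm] at h1
    cases l' with
    | nil => simp at h1
    | cons a l' =>
      have h2 : a = u := by simpa using h1
      exact ⟨l', by rw [h2]⟩
  · exact dish_main hl hn hn64 h hT hC.1 hC.2.1 hC.2.2.2 hrot hvis (Nat.zero_testBit _)

end

/-- all the finite data; `a` a member of the class, `l` a plane path outside of the class -/
structure FixCert (n N : ℕ) (pts : List (ℕ × ℕ)) (OT XT : List (List ℕ)) (T : TS)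
    (a l : List ℕ) (Km : ℕ) : Prop where
  hl : pts.length = n
  hn : 3 ≤ n
  hn64 : n ≤ 256
  hN : N = 2 ^ n
  tab : chkT n N pts OT XT = true
  nd : a.Nodup
  all : ∀ v < n, v ∈ a
  lt : ∀ v ∈ a, v < n
  ina : T.mem (enc a) = true
  ck : T.all (chkK n T XT Km) = true
  pl : plN XT (em n a) a = true
  lnd : l.Nodup
  lall : ∀ v < n, v ∈ l
  llt : ∀ v ∈ l, v < n
  lpl : plN XT (em n l) l = true
  lno : T.all (fun k => cond (Nat.beq k (enc l)) false true) = true

private theorem dish_no {T : TS} {c : ℕ}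
    (h : T.all (fun k => cond (Nat.beq k c) false true) = true) : ¬ T.In c := by
  intro h1
  have h2 := TS.of_all h h1
  rw [Nat.beq_refl] at h2
  simp at h2

private theorem dish_col {n : ℕ} {p : Fin n → ℝ × ℝ} (hgp : GP p) (i j k : Fin n) (hij : i ≠ j)
    (hjk : j ≠ k) (hik : i ≠ k) : ¬ Collinear ℝ ({p i, p j, p k} : Set (ℝ × ℝ)) := by
  intro hc
  refine hgp.ne i j k hij hjk hik ?_
  rw [collinear_iff_of_mem (p₀ := p i) (by simp)] at hc
  obtain ⟨v, hv⟩ := hc
  obtain ⟨s, hs⟩ := hv (p j) (by simp)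
  obtain ⟨t, ht⟩ := hv (p k) (by simp)
  unfold o
  rw [hs, ht]
  simp only [vadd_eq_add, Prod.fst_add, Prod.snd_add, Prod.smul_fst, Prod.smul_snd,
    smul_eq_mul]
  ring

private theorem dish_lift {n : ℕ} {s : List ℕ} (hnd : s.Nodup) (hall : ∀ v < n, v ∈ s)
    (hlt : ∀ v ∈ s, v < n) : ∃ l : List (Fin n), l.map Fin.val = s ∧ l.Nodup ∧ ∀ v, v ∈ l := by
  obtain ⟨l, hl⟩ := lift_list (n := n) (s := s) hlt
  refine ⟨l, hl, ?_, ?_⟩
  · have h1 := hnd
    rw [← hl] at h1
    exact List.Nodup.of_map _ h1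
  · intro v
    have h1 := hall v v.2
    rw [← hl, List.mem_map] at h1
    obtain ⟨i, h2, h3⟩ := h1
    rw [← Fin.ext h3]
    exact h2

/-- **Certificate for the fixed first edge.** -/
theorem fe_final {n N : ℕ} {pts : List (ℕ × ℕ)} {OT XT : List (List ℕ)} {T : TS}
    {a l : List ℕ} {Km u v : ℕ} (H : FixCert n N pts OT XT T a l Km) (hKm : Km = 2 ^ u)
    (hpre : a.take 2 = [u, v]) (hpre' : l.take 2 = [u, v]) :
    ∃ (n : ℕ) (p : Fin n → ℝ × ℝ), Function.Injective p ∧
      (∀ i j k : Fin n, i ≠ j → j ≠ k → i ≠ k →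
        ¬ Collinear ℝ ({p i, p j, p k} : Set (ℝ × ℝ))) ∧
      ∃ (u v : Fin n) (G H : SimpleGraph (Fin n)),
        (PlanePath p G ∧ G.neighborSet u = {v}) ∧ (PlanePath p H ∧ H.neighborSet u = {v}) ∧
        ¬ Relation.ReflTransGen (fun A B : SimpleGraph (Fin n) =>
          (PlanePath p A ∧ A.neighborSet u = {v}) ∧ (PlanePath p B ∧ B.neighborSet u = {v}) ∧
            (A.edgeSet \ B.edgeSet).ncard = 1 ∧ (B.edgeSet \ A.edgeSet).ncard = 1) G H := by
  have hT := tab_ok H.hN H.tab
  have hgp := tab_gp H.hl H.hn hT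
  refine ⟨n, cfg pts n, hgp.inj, dish_col hgp, ?_⟩
  obtain ⟨a₀, ha, hand, haall⟩ := dish_lift H.nd H.all H.lt
  obtain ⟨l₁, hl, hlnd, hlall⟩ := dish_lift H.lnd H.lall H.llt
  have hpr : ∀ (s : List ℕ) (b : List (Fin n)), b.map Fin.val = s → s.take 2 = [u, v] →
      ∃ (u' v' : Fin n) (m : List (Fin n)), (u' : ℕ) = u ∧ (v' : ℕ) = v ∧ b = u' :: v' :: m := by
    intro s b hb hs
    subst hb
    cases b with
    | nil => simp at hs
    | cons x b =>
      cases b with
      | nil => simp at hs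
      | cons y b =>
        simp only [List.map_cons, List.take_succ_cons, List.take_zero, List.cons.injEq,
          and_true] at hs
        exact ⟨x, y, b, hs.1, hs.2, rfl⟩
  obtain ⟨u₀, v₀, m₀, hu, hv, hm₀⟩ := hpr _ _ ha hpre
  obtain ⟨u₁, v₁, m₁, hu₁, hv₁, hm₁⟩ := hpr _ _ hl hpre'
  have huu : u₁ = u₀ := Fin.ext (hu₁.trans hu.symm)
  have hvv : v₁ = v₀ := Fin.ext (hv₁.trans hv.symm)
  subst huu hvv
  have hC := closedE_of_check (v := v₁) H.hl H.hn H.hn64 hT (hKm.trans (by rw [← hu])) H.ck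
  have h0 : ClsE T u₁ v₁ a₀ := by
    refine ⟨hand, haall, ⟨m₀, hm₀⟩, ?_⟩
    rw [ha]
    exact TS.in_of_mem H.ina
  refine ⟨u₁, v₁, fe_dis hgp H.hn hC h0 ?_ hlnd hlall ?_ ⟨m₁, hm₁⟩ ?_⟩
  · apply plane_of_check H.hl hT
    rw [ha]
    exact H.pl
  · apply plane_of_check H.hl hT
    rw [hl]
    exact H.lpl
  · intro h1
    have h2 := h1.2.2.2
    rw [hl] at h2
    exact dish_no H.lno h2

/-- **Certificate for the fixed first vertex.** -/
theorem fv_final {n N : ℕ} {pts : List (ℕ × ℕ)} {OT XT : List (List ℕ)} {T : TS}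
    {a l : List ℕ} {u : ℕ} (H : FixCert n N pts OT XT T a l 0)
    (hpre : a.take 1 = [u]) (hpre' : l.take 1 = [u]) :
    ∃ (n : ℕ) (p : Fin n → ℝ × ℝ), Function.Injective p ∧
      (∀ i j k : Fin n, i ≠ j → j ≠ k → i ≠ k →
        ¬ Collinear ℝ ({p i, p j, p k} : Set (ℝ × ℝ))) ∧
      ∃ (u : Fin n) (G H : SimpleGraph (Fin n)),
        (PlanePath p G ∧ (G.neighborSet u).ncard = 1) ∧
        (PlanePath p H ∧ (H.neighborSet u).ncard = 1) ∧
        ¬ Relation.ReflTransGen (fun A B : SimpleGraph (Fin n) =>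
          (PlanePath p A ∧ (A.neighborSet u).ncard = 1) ∧
            (PlanePath p B ∧ (B.neighborSet u).ncard = 1) ∧
            (A.edgeSet \ B.edgeSet).ncard = 1 ∧ (B.edgeSet \ A.edgeSet).ncard = 1) G H := by
  have hT := tab_ok H.hN H.tab
  have hgp := tab_gp H.hl H.hn hT
  refine ⟨n, cfg pts n, hgp.inj, dish_col hgp, ?_⟩
  obtain ⟨a₀, ha, hand, haall⟩ := dish_lift H.nd H.all H.lt
  obtain ⟨l₁, hl, hlnd, hlall⟩ := dish_lift H.lnd H.lall H.llt
  have hn3 := H.hn
  have hpr : ∀ (s : List ℕ) (b : List (Fin n)), b.map Fin.val = s → s.take 1 = [u] →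
      b.length = n → ∃ (u' v' : Fin n) (m : List (Fin n)), (u' : ℕ) = u ∧ b = u' :: v' :: m := by
    intro s b hb hs hbn
    subst hb
    cases b with
    | nil => simp at hs
    | cons x b =>
      cases b with
      | nil =>
        simp at hbn
        omega
      | cons y b =>
        simp only [List.map_cons, List.take_succ_cons, List.take_zero, List.cons.injEq,
          and_true] at hs
        exact ⟨x, y, b, hs, rfl⟩
  obtain ⟨u₀, v₀, m₀, hu, hm₀⟩ := hpr _ _ ha hpre (dish_len hand haall)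
  obtain ⟨u₁, v₁, m₁, hu₁, hm₁⟩ := hpr _ _ hl hpre' (dish_len hlnd hlall)
  have huu : u₁ = u₀ := Fin.ext (hu₁.trans hu.symm)
  subst huu
  have hC := closedV_of_check (u := u₁) H.hl H.hn H.hn64 hT H.ck
  have h0 : ClsV T u₁ a₀ := by
    refine ⟨hand, haall, ⟨v₀ :: m₀, hm₀⟩, ?_⟩
    rw [ha]
    exact TS.in_of_mem H.ina
  refine ⟨u₁, fv_dis hgp H.hn hC h0 ?_ hlnd hlall ?_ ⟨v₁, m₁, hm₁⟩ ⟨v₀, m₀, hm₀⟩ ?_⟩
  · apply plane_of_check H.hl hT
    rw [ha]
    exact H.pl
  · apply plane_of_check H.hl hT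
    rw [hl]
    exact H.lpl
  · intro h1
    have h2 := h1.2.2.2
    rw [hl] at h2
    exact dish_no H.lno h2

end FPW
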